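import Pool.Agent.W749.ME.ComE

/-!
# Project ME, part ESTB: the strata with `l = 0`, equivariant version
-/

set_option autoImplicit false

namespace Pool.Agent.W749.ME.EStB

open Pool.Agent.W428.MOT Pool.Agent.W749.MT Pool.Agent.W749.ME
open Pool.Agent.W426.SM (AffInd gord ford)

theorem main (h1 : S_EFree) (h2 : S_Tay) : S_EStB := by
  intro K _ _ n r A m c e R _ M hAff hc hr he J N hN u hA hu hf
  classical
  have hJ : ∀ i, i ∈ J ↔ u i ≠ 0 := fun i => (hA i).symm
  have hf0 : 0 < ford A m e u := by omega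
  set τ := amin m u with hτ
  set Fr := free A m J τ with hFr
  have hFJ : ∀ i ∈ Fr, i ∈ J ∧ A i = 0 ∧ ∀ j ∈ τ, m j i = 0 := fun i hi =>
    (mem_free A m J τ i).1 hi
  have hl0 : ∀ l : AlgebraicClosure K, l ^ N = 1 → l ≠ 0 := by
    intro l hl h0
    rw [h0, zero_pow (by omega)] at hl
    exact zero_ne_one hl
  set T : Set (Pt K (Fin n × Fin (2 * N + 1 + 1))) :=
    {y | (∏ i, y (i, 0) ^ A i) * (gbar m (cb c) τ (fun i => y (i, 0))) ^ e = 1} with hT
  have hTc : Constr T := by
    refine Constr.eq ?_ IsPF.one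
    exact (IsPF_prod A (fun i => (i, 0))).mul ((IsPF_gbar m c τ (fun i => (i, 0))).pow e)
  have hTe : {y : Pt K (Fin n × Fin (2 * N + 1 + 1)) | (∏ i, y (i, 0) ^ A i) *
        (PowerSeries.coeff 0 (gser m (cb c) (del m u) (arc y))) ^ e = 1} = T := by
    ext y
    simp only [hT, Set.mem_ofPred_eq]
    rw [(h2 m (cb c) (del m u) (arc y)).1, filter_del]
    simp only [constantCoeff_arc]
    exact Iff.rfl
  have hdep : ∀ y w : Pt K (Fin n × Fin (2 * N + 1 + 1)), (∀ i, i ∉ Fr → w (i, 0) = y (i, 0)) →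
      (∀ p ∈ (∅ : Finset (Fin n × Fin (2 * N + 1 + 1))), w p = y p) → y ∈ T → w ∈ T := by
    intro y w h _ hy
    simp only [hT, Set.mem_ofPred_eq] at hy ⊢
    rw [← hy]
    congr 1
    · refine prod_congr' A (fun i => w (i, 0)) (fun i => y (i, 0)) fun i hi => ?_
      refine h i fun hc => hi (hFJ i hc).2.1
    · congr 1
      refine gbar_congr m (cb c) τ _ _ fun i hi => ?_
      refine h i fun hc => ?_
      obtain ⟨j, hj, hm⟩ := hi
      exact hm ((hFJ i hc).2.2 j hj)
  -- the invariance of the equation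
  have hinv : ∀ (l : AlgebraicClosure K) (w : Fin n → ℤ) (z : Fin n → AlgebraicClosure K),
      l ^ N = 1 → (∀ i, i ∉ Fr → w i = u i) →
      (∏ i, z i ^ A i) * gbar m (cb c) τ z ^ e = 1 →
      (∏ i, (l ^ w i * z i) ^ A i) * gbar m (cb c) τ (fun i => l ^ w i * z i) ^ e = 1 := by
    intro l w z hl hw hz
    rw [prod_smul l u w A z fun i hi => hw i fun hc => hi (hFJ i hc).2.1,
      gbar_smul l u w m (cb c) z ?_]
    · have e1 : l ^ (∑ i, u i * A i) * ∏ i, z i ^ A i =
          l ^ (∑ i, u i * A i) * ∏ i, z i ^ A i := rfl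
      have e2 : l ^ (∑ i, u i * A i) * (∏ i, z i ^ A i) *
          (l ^ gord m u * gbar m (cb c) (amin m u) z) ^ e =
          l ^ (∑ i, u i * A i + e * gord m u) *
            ((∏ i, z i ^ A i) * gbar m (cb c) (amin m u) z ^ e) := by
        rw [mul_pow, ← pow_mul, pow_add, mul_comm (gord m u) e]
        ring
      rw [e2, hz, mul_one]
      have e3 : ∑ i, u i * A i + e * gord m u = N := hf
      rw [e3, hl]
    · intro i hi
      refine hw i fun hc => ?_
      obtain ⟨j, hj, hm⟩ := hi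
      exact hm ((hFJ i hc).2.2 j hj)
  have hTst : ∀ l : AlgebraicClosure K, l ^ N = 1 → ∀ z ∈ T,
      dact (yw (2 * N + 1) u) l z ∈ T := by
    intro l hl z hz
    simp only [hT, Set.mem_ofPred_eq, dact_yw_zero] at hz ⊢
    exact hinv l (fun i => (u i : ℤ)) (fun i => z (i, 0)) hl (fun i _ => rfl) hz
  have hx : ∀ i ∈ Fr, u i ≠ 0 := fun i hi => (hJ i).1 (hFJ i hi).1
  have hbase : ∀ z : Pt K (Fin n × Fin (2 * N + 1 + 1)),
      MvPolynomial.aeval (cbase (yb (2 * N + 1) u) z) (sp A m c e) = 0 :=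
    base_yb A m c e he u hf0
  have key := freeE h1 M N u (by omega) Fr hx
    (fun i hi => le_of_not_free A m e J u N he hA hf.le i hi) hbase ∅ (Finset.empty_subset _) T
    hTc hTst hdep
  rw [Finset.card_empty, pow_zero, mul_one] at key
  rw [hTe, key]
  congr 3
  have hVN := valid_Nrm N u (by omega) Fr hx hbase ∅ (Finset.empty_subset _) T hTc hTst hdep
  have hVB : Valid (sp A m c e) (EB0 A m c e J τ) (bw A m J τ u) N (bb J) := by
    refine ⟨?_, by omega, ?_, fun z _ => base_bb A m c e he J u hA hf0 z, ?_⟩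
    · refine Constr.and ?_ (Constr.and ?_ ?_)
      · exact Constr.all fun i => Constr.ne (IsPF.coord _) IsPF.zero
      · exact Constr.ballFinset _ fun i _ => Constr.eq (IsPF.coord _) IsPF.one
      · exact Constr.eq ((IsPF_prod A id).mul ((IsPF_gbar m c τ id).pow e)) IsPF.one
    · rintro l hl z ⟨hz1, hz2, hz3⟩
      refine ⟨fun i => mul_ne_zero (zpow_ne_zero _ (hl0 l hl)) (hz1 i), fun i hi => ?_, ?_⟩
      · show l ^ bw A m J τ u i * z i = 1
        unfold bw
        rw [if_pos hi, zpow_zero, one_mul]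
        exact hz2 i hi
      · exact hinv l (bw A m J τ u) z hl (fun i hi => if_neg hi) hz3
    · intro i j h
      unfold bb at h
      split_ifs at h with h0
      rw [← Option.some.inj h]
      unfold bw
      split_ifs with h3
      · rfl
      · have : u i = 0 := by
          by_contra hc
          exact h0 ((hJ i).2 hc)
        rw [this]
        rfl
  refine M.iso _ _ _ _ _ _ _ _ hVN hVB (fun y i => y (i, 0))
    (fun z p => if (p.2 : ℕ) = 0 then z p.1 else 0) ?_ ?_ ?_ ?_ ?_ ?_ ?_ ?_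
  · exact regularOn_poly (fun i => IsPF.coord _) _
  · refine regularOn_poly (fun p => ?_) _
    by_cases h : (p.2 : ℕ) = 0
    · simpa only [if_pos h] using IsPF.coord (K := K) p.1
    · simpa only [if_neg h] using IsPF.zero (K := K)
  · rintro y ⟨⟨hy1, hy2, hy3⟩, hy5⟩
    refine ⟨?_, hy3, hy5⟩
    intro i
    by_cases h : i ∈ Fr
    · show y (i, 0) ≠ 0
      rw [hy3 i h]
      exact one_ne_zero
    · exact hy2 i h
  · rintro z ⟨hz1, hz2, hz3⟩
    have h0 : ((0 : Fin (2 * N + 1 + 1)) : ℕ) = 0 := rfl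
    refine ⟨⟨?_, ?_, ?_⟩, ?_⟩
    · intro p hp _
      exact if_neg hp.ne'
    · intro i hi
      show (if ((0 : Fin (2 * N + 1 + 1)) : ℕ) = 0 then z i else 0) ≠ 0
      rw [if_pos h0]
      exact hz1 i
    · intro i hi
      show (if ((0 : Fin (2 * N + 1 + 1)) : ℕ) = 0 then z i else 0) = _
      rw [if_pos h0]
      exact hz2 i hi
    · show (∏ i, (if ((0 : Fin (2 * N + 1 + 1)) : ℕ) = 0 then z i else 0) ^ A i) *
        (gbar m (cb c) τ (fun i => if ((0 : Fin (2 * N + 1 + 1)) : ℕ) = 0 then z i else 0)) ^ e = 1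
      simp only [if_pos h0]
      exact hz3
  · rintro y ⟨⟨hy1, hy2, hy3⟩, hy5⟩
    funext p
    show (if (p.2 : ℕ) = 0 then y (p.1, 0) else 0) = y p
    by_cases h : (p.2 : ℕ) = 0
    · rw [if_pos h]
      congr 1
      refine Prod.ext rfl ?_
      exact Fin.ext h.symm
    · rw [if_neg h]
      exact (hy1 p (Nat.pos_of_ne_zero h) (Finset.notMem_empty p)).symm
  · intro z _
    funext i
    show (if ((0 : Fin (2 * N + 1 + 1)) : ℕ) = 0 then z i else 0) = z i
    exact if_pos rfl
  · intro z _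
    funext i
    show (bb J i).elim 0 (fun i => z (i, 0)) = (yb (2 * N + 1) u i).elim 0 z
    unfold bb yb
    by_cases h : i ∈ J
    · rw [if_pos h, if_neg ((hJ i).1 h)]
      rfl
    · have : u i = 0 := by
        by_contra hc
        exact h ((hJ i).2 hc)
      rw [if_neg h, if_pos this]
      rfl
  · intro l hl z _
    funext i
    show (l ^ N) ^ nw N u Fr ∅ (i, 0) * z (i, 0) = (l ^ N) ^ bw A m J τ u i * z (i, 0)
    congr 2
    unfold nw bw
    by_cases h : i ∈ Fr
    · rw [if_pos (Or.inl ⟨h, rfl⟩), if_pos h]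
    · rw [if_neg, if_neg h]
      · show (u i : ℤ) + (((0 : Fin (2 * N + 1 + 1)) : ℕ) : ℤ) = u i
        have h0 : (((0 : Fin (2 * N + 1 + 1)) : ℕ) : ℤ) = 0 := rfl
        rw [h0, add_zero]
      · rintro (⟨h3, _⟩ | ⟨h3, _⟩)
        · exact h h3
        · exact absurd (mem_Qs.1 h3).1 (lt_irrefl 0)

end Pool.Agent.W749.ME.EStB
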