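import Pool.Agent.W749.ME.FreeW
import Pool.Agent.W749.MT.StC

/-!
# Project ME, part ESTC: the strata with `l ≥ 1`, equivariant version
-/

set_option autoImplicit false

namespace Pool.Agent.W749.ME.EStC

open Pool.Agent.W428.MOT Pool.Agent.W749.MT Pool.Agent.W749.ME Pool.Agent.W749.MT.StC
open Pool.Agent.W426.SM (AffInd gord ford)

/-! ### additivity -/

section MeasSec

variable {k : Type} [Field k] {n : ℕ} {f : MvPolynomial (Fin n) k} {R : Type} [CommRing R]
  {ι : Type} [Fintype ι]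

theorem χE_empty (M : EMeas f R) (ρ : ι → ℤ) (d : ℕ) (β : Fin n → Option ι) (hd : 0 < d)
    (hinv : ∀ i j, β i = some j → ρ j = 0) : M.χ ι (∅ : Set (Pt k ι)) ρ d β = 0 := by
  have hV : Valid f (∅ : Set (Pt k ι)) ρ d β :=
    ⟨Constr.empty, hd, fun _ _ z hz => hz.elim, fun z hz => hz.elim, hinv⟩
  have h := M.add (∅ : Set (Pt k ι)) ∅ ρ d β hV hV (Set.disjoint_empty _)
  rw [Set.union_empty] at h
  have h2 : M.χ ι (∅ : Set (Pt k ι)) ρ d β + 0 = M.χ ι ∅ ρ d β + M.χ ι ∅ ρ d β := by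
    rw [add_zero]
    exact h
  exact (add_left_cancel h2).symm

omit [Fintype ι] in
theorem valid_inter (S P : Set (Pt k ι)) (ρ : ι → ℤ) (d : ℕ) (β : Fin n → Option ι)
    (hS : Valid f S ρ d β) (hP : Constr P)
    (hst : ∀ l : AlgebraicClosure k, l ^ d = 1 → ∀ z ∈ P, dact ρ l z ∈ P) :
    Valid f (S ∩ P) ρ d β :=
  ⟨hS.constr.inter hP, hS.pos, fun l hl z hz => ⟨hS.stable l hl z hz.1, hst l hl z hz.2⟩,
    fun z hz => hS.base z hz.1, hS.inv⟩

theorem χE_biUnion (M : EMeas f R) {α : Type} [DecidableEq α] (s : Finset α) (S : Set (Pt k ι))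
    (P : α → Set (Pt k ι)) (ρ : ι → ℤ) (d : ℕ) (β : Fin n → Option ι)
    (hS : Valid f S ρ d β) (hP : ∀ a, Constr (P a))
    (hst : ∀ a, ∀ l : AlgebraicClosure k, l ^ d = 1 → ∀ z ∈ P a, dact ρ l z ∈ P a)
    (hd : ∀ a b, a ≠ b → Disjoint (P a) (P b)) :
    M.χ ι (S ∩ {z | ∃ a ∈ s, z ∈ P a}) ρ d β = ∑ a ∈ s, M.χ ι (S ∩ P a) ρ d β := by
  induction s using Finset.induction_on with
  | empty =>
    have : S ∩ {z | ∃ a ∈ (∅ : Finset α), z ∈ P a} = ∅ := by
      ext z
      simp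
    rw [this, χE_empty M ρ d β hS.pos hS.inv, Finset.sum_empty]
  | insert b s hb ih =>
    have e : S ∩ {z | ∃ a ∈ insert b s, z ∈ P a} =
        (S ∩ P b) ∪ (S ∩ {z | ∃ a ∈ s, z ∈ P a}) := by
      ext z
      constructor
      · rintro ⟨h1, a, ha, h2⟩
        rcases Finset.mem_insert.1 ha with rfl | ha
        · exact Or.inl ⟨h1, h2⟩
        · exact Or.inr ⟨h1, a, ha, h2⟩
      · rintro (⟨h1, h2⟩ | ⟨h1, a, ha, h2⟩)
        · exact ⟨h1, b, Finset.mem_insert_self _ _, h2⟩
        · exact ⟨h1, a, Finset.mem_insert_of_mem ha, h2⟩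
    rw [e, M.add _ _ ρ d β (valid_inter S (P b) ρ d β hS (hP b) (hst b))
      (valid_inter S _ ρ d β hS (constr_biUnion s P hP) ?_) ?_, ih, Finset.sum_insert hb]
    · rintro l hl z ⟨a, ha, hz⟩
      exact ⟨a, ha, hst a l hl z hz⟩
    · rw [Set.disjoint_left]
      rintro z ⟨_, h1⟩ ⟨_, a, ha, h2⟩
      have hne : b ≠ a := by
        rintro rfl
        exact hb ha
      exact Set.disjoint_left.1 (hd b a hne) h1 h2

theorem χE_cover (M : EMeas f R) {α : Type} [Fintype α] [DecidableEq α] (S : Set (Pt k ι))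
    (P : α → Set (Pt k ι)) (ρ : ι → ℤ) (d : ℕ) (β : Fin n → Option ι)
    (hS : Valid f S ρ d β) (hP : ∀ a, Constr (P a))
    (hst : ∀ a, ∀ l : AlgebraicClosure k, l ^ d = 1 → ∀ z ∈ P a, dact ρ l z ∈ P a)
    (hd : ∀ a b, a ≠ b → Disjoint (P a) (P b)) (hc : ∀ z ∈ S, ∃ a, z ∈ P a) :
    M.χ ι S ρ d β = ∑ a, M.χ ι (S ∩ P a) ρ d β := by
  rw [← χE_biUnion M Finset.univ S P ρ d β hS hP hst hd]
  congr 1
  ext z
  constructor
  · intro h
    obtain ⟨a, ha⟩ := hc z h
    exact ⟨h, a, Finset.mem_univ _, ha⟩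
  · rintro ⟨h, _⟩
    exact h

end MeasSec

/-! ### the weights at level `s` -/

section Weights

variable {k : Type} [Field k] {n r : ℕ}

/-- the weights at level `s`: the coordinates `y (i0, j)`, `s < j ≤ l`, have weight `gord + j` -/
noncomputable def ws {N : ℕ} (m : Fin r → Fin n → ℕ) (u : Fin n → ℕ) (i0 : Fin n) (l s : ℕ)
    (p : Fin n × Fin (N + 1)) : ℤ :=
  if p.1 = i0 ∧ s < (p.2 : ℕ) ∧ (p.2 : ℕ) ≤ l then (gord m u : ℤ) + (p.2 : ℕ) else yw N u p

theorem ws_of_le {N : ℕ} (m : Fin r → Fin n → ℕ) (u : Fin n → ℕ) (i0 : Fin n) (l s : ℕ)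
    (p : Fin n × Fin (N + 1)) (h : (p.2 : ℕ) ≤ s) : ws m u i0 l s p = yw N u p := by
  unfold ws
  rw [if_neg]
  omega

theorem ws_zero {N : ℕ} (m : Fin r → Fin n → ℕ) (u : Fin n → ℕ) (i0 : Fin n) (l s : ℕ)
    (i : Fin n) : ws (N := N) m u i0 l s (i, 0) = u i := by
  rw [ws_of_le m u i0 l s (i, 0) (Nat.zero_le _)]
  unfold yw
  have h0 : (((0 : Fin (N + 1)) : ℕ) : ℤ) = 0 := rfl
  rw [h0, add_zero]

theorem ws_self {N : ℕ} (m : Fin r → Fin n → ℕ) (u : Fin n → ℕ) (i0 : Fin n) (l : ℕ) :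
    ws (N := N) m u i0 l l = yw N u := by
  funext p
  unfold ws
  rw [if_neg]
  omega

theorem dact_ws_zero {N : ℕ} (m : Fin r → Fin n → ℕ) (u : Fin n → ℕ) (i0 : Fin n) (l s : ℕ)
    (t : AlgebraicClosure k) (y : Pt k (Fin n × Fin (N + 1))) (i : Fin n) :
    dact (ws m u i0 l s) t y (i, 0) = t ^ (u i : ℤ) * y (i, 0) := by
  show t ^ ws m u i0 l s (i, 0) * y (i, 0) = _
  rw [ws_zero]

/-- low coefficients of the arcs -/
theorem coeff_arc_ws {N : ℕ} (m : Fin r → Fin n → ℕ) (u : Fin n → ℕ) (i0 : Fin n) (l s : ℕ)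
    (t : AlgebraicClosure k) (y : Pt k (Fin n × Fin (N + 1))) (i : Fin n) (j : ℕ) (hj : j ≤ s) :
    PowerSeries.coeff j (arc (dact (ws m u i0 l s) t y) i) =
      PowerSeries.coeff j (arc (dact (yw N u) t y) i) := by
  by_cases h : j < N + 1
  · rw [coeff_arc _ _ _ h, coeff_arc _ _ _ h]
    show t ^ _ * _ = t ^ _ * _
    rw [ws_of_le m u i0 l s (i, ⟨j, h⟩) hj]
  · rw [arc, arc, PowerSeries.coeff_mk, PowerSeries.coeff_mk, dif_neg h, dif_neg h]

/-- semi-invariance of the `v_k` -/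
theorem vv_dact {N : ℕ} (h3 : S_Tay) (m : Fin r → Fin n → ℕ) (c : Fin r → k) (u : Fin n → ℕ)
    (i0 : Fin n) (l s : ℕ) (hlN : l < N + 1) (t : AlgebraicClosure k) (ht : t ≠ 0)
    (y : Pt k (Fin n × Fin (N + 1))) (j : ℕ) (hj : j ≤ l) :
    vv m c (del m u) i0 s (dact (ws m u i0 l s) t y) j =
      t ^ ((gord m u : ℤ) + j) * vv m c (del m u) i0 s y j := by
  unfold vv
  by_cases h : j ≤ s
  · rw [if_pos h, if_pos h, ← coeff_gser_dact u m c t ht y j]
    refine (h3 m (cb c) (del m u) _).2.1 j _ ?_ j le_rfl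
    intro i j' hj'
    exact coeff_arc_ws m u i0 l s t y i j' (by omega)
  · rw [if_neg h, if_neg h, coeff_arc _ _ _ (by omega), coeff_arc _ _ _ (by omega)]
    show t ^ ws m u i0 l s _ * _ = _
    congr 2
    unfold ws
    rw [if_pos ⟨rfl, by simpa using h, hj⟩]

theorem QQ_stable {ι : Type} (m : Fin r → Fin n → ℕ) (c : Fin r → k) (u : Fin n → ℕ)
    (q : Fin n → ι) (i0 : Fin n) (ρ : ι → ℤ)
    (hρ : ∀ i, (∃ j ∈ amin m u, m j i ≠ 0) → ρ (q i) = u i)
    (t : AlgebraicClosure k) (ht : t ≠ 0) (z : Pt k ι) (hz : z ∈ QQ m c (amin m u) q i0) :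
    dact ρ t z ∈ QQ m c (amin m u) q i0 := by
  have h : ∀ i, dgbar m (cb c) (amin m u) i (fun i => dact ρ t z (q i)) =
      t ^ ((gord m u : ℤ) - u i) * dgbar m (cb c) (amin m u) i (fun i => z (q i)) := fun i =>
    dgbar_smul t ht u (fun i => ρ (q i)) m (cb c) i (fun i => z (q i)) hρ
  refine ⟨fun i hi => ?_, ?_⟩
  · rw [h, hz.1 i hi, mul_zero]
  · rw [h]
    exact mul_ne_zero (zpow_ne_zero _ ht) hz.2

theorem final_eq {A : Fin n → ℕ} (m : Fin r → Fin n → ℕ) (e : ℕ) (u : Fin n → ℕ) (N l : ℕ)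
    (hf : ford A m e u + e * l = N) (t : AlgebraicClosure k) (htN : t ^ N = 1)
    (P v : AlgebraicClosure k) (h : P * v ^ e = 1) :
    (t ^ (∑ i, u i * A i) * P) * (t ^ ((gord m u : ℤ) + l) * v) ^ e = 1 := by
  have e1 : t ^ ((gord m u : ℤ) + l) = t ^ (gord m u + l) := by
    rw [← Nat.cast_add, zpow_natCast]
  rw [e1, mul_pow, ← pow_mul]
  have e2 : t ^ (∑ i, u i * A i) * P * (t ^ ((gord m u + l) * e) * v ^ e) =
      t ^ (∑ i, u i * A i + (gord m u + l) * e) * (P * v ^ e) := by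
    rw [pow_add]
    ring
  have e3 : ∑ i, u i * A i + (gord m u + l) * e = N := by
    have : ford A m e u = ∑ i, u i * A i + e * gord m u := rfl
    rw [← hf, this]
    ring
  rw [e2, h, e3, htN, mul_one]

theorem CC_stable {N : ℕ} (h3 : S_Tay) (A : Fin n → ℕ) (m : Fin r → Fin n → ℕ) (c : Fin r → k)
    (e : ℕ) (u : Fin n → ℕ) (i0 : Fin n) (l s : ℕ) (hlN : l < N + 1) (N' : ℕ)
    (hf : ford A m e u + e * l = N') (t : AlgebraicClosure k) (ht : t ≠ 0) (htN : t ^ N' = 1)
    (y : Pt k (Fin n × Fin (N + 1))) (hy : y ∈ CC A m c e (del m u) l i0 s) :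
    dact (ws m u i0 l s) t y ∈ CC A m c e (del m u) l i0 s := by
  obtain ⟨h5, h6⟩ := hy
  refine ⟨fun j hj => ?_, ?_⟩
  · rw [vv_dact h3 m c u i0 l s hlN t ht y j hj.le, h5 j hj, mul_zero]
  · rw [vv_dact h3 m c u i0 l s hlN t ht y l le_rfl]
    simp only [dact_ws_zero]
    rw [prod_smul t u (fun i => (u i : ℤ)) A (fun i => y (i, 0)) fun _ _ => rfl]
    exact final_eq m e u N' l hf t htN _ _ h6

end Weights

section Step

variable {k : Type} [Field k] {n r : ℕ} {R : Type} [CommRing R]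

/-- `f` vanishes at the base points, in the case `gbar = 0` -/
theorem base_gbar (A : Fin n → ℕ) (m : Fin r → Fin n → ℕ) (c : Fin r → k) (e : ℕ)
    (he : 0 < e) (u : Fin n → ℕ) (w z : Pt k (Fin n)) (hw : ∀ i, u i ≠ 0 → w i = 0)
    (hz : ∀ i, u i = 0 → w i = z i) (hg : gbar m (cb c) (amin m u) z = 0) :
    MvPolynomial.aeval w (sp A m c e) = 0 := by
  classical
  by_cases h : gord m u = 0
  · unfold sp
    have h1 : MvPolynomial.aeval w (∑ j, MvPolynomial.C (c j) * ∏ i, MvPolynomial.X i ^ m j i :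
        MvPolynomial (Fin n) k) = 0 := by
      rw [map_sum, ← hg, gbar_congr m (cb c) (amin m u) z w]
      · unfold gbar
        symm
        rw [← Finset.sum_subset (Finset.subset_univ (amin m u))]
        · refine Finset.sum_congr rfl fun j _ => ?_
          rw [map_mul, MvPolynomial.algHom_C, map_prod]
          unfold cb
          congr 1
          refine Finset.prod_congr rfl fun i _ => ?_
          rw [map_pow, MvPolynomial.aeval_X]
        · intro j _ hj
          rw [mem_amin, h] at hj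
          have h4 : ∃ i, u i * m j i ≠ 0 := by
            by_contra hc
            push Not at hc
            exact hj (Finset.sum_eq_zero fun i _ => hc i)
          obtain ⟨i, hi⟩ := h4
          have hi1 : u i ≠ 0 := fun hc => hi (by rw [hc, zero_mul])
          have hi2 : m j i ≠ 0 := fun hc => hi (by rw [hc, mul_zero])
          rw [map_mul, map_prod]
          have h6 : ∏ i, MvPolynomial.aeval w (MvPolynomial.X i ^ m j i :
              MvPolynomial (Fin n) k) = 0 := by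
            refine Finset.prod_eq_zero (Finset.mem_univ i) ?_
            rw [map_pow, MvPolynomial.aeval_X, hw i hi1, zero_pow hi2]
          rw [h6, mul_zero]
      · rintro i ⟨j, hj, hm⟩
        have h5 := (mem_amin m u j).1 hj
        rw [h, Finset.sum_eq_zero_iff] at h5
        have h6 := h5 i (Finset.mem_univ i)
        have h7 : u i = 0 := (Nat.mul_eq_zero.1 h6).resolve_right hm
        exact (hz i h7).symm
    rw [map_mul, map_pow, h1, zero_pow he.ne', mul_zero]
  · refine base_zero A m c e he u ?_ w hw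
    have h1 : ford A m e u = ∑ i, u i * A i + e * gord m u := rfl
    have h2 : 0 < e * gord m u := Nat.mul_pos he (Nat.pos_of_ne_zero h)
    omega

theorem base_CC (h3 : S_Tay) {N : ℕ} (A : Fin n → ℕ) (m : Fin r → Fin n → ℕ) (c : Fin r → k)
    (e : ℕ) (he : 0 < e) (u : Fin n → ℕ) (l : ℕ) (hl : 0 < l) (i0 : Fin n) (s : ℕ)
    (z : Pt k (Fin n × Fin (N + 1))) (hz : z ∈ CC A m c e (del m u) l i0 s) :
    MvPolynomial.aeval (cbase (yb N u) z) (sp A m c e) = 0 := by
  refine base_gbar A m c e he u _ (fun i => z (i, 0)) ?_ ?_ ?_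
  · intro i hi
    unfold cbase yb
    rw [if_neg hi]
    rfl
  · intro i hi
    unfold cbase yb
    rw [if_pos hi]
    rfl
  · have h5 := hz.1 0 hl
    unfold vv at h5
    rw [if_pos (Nat.zero_le s), (h3 m (cb c) (del m u) (arc z)).1, filter_del] at h5
    simp only [constantCoeff_arc] at h5
    exact h5

theorem valid_V (h3 : S_Tay) (A : Fin n → ℕ) (m : Fin r → Fin n → ℕ) (c : Fin r → k) (e : ℕ)
    (he : 0 < e) (N : ℕ) (hN : 0 < N) (u : Fin n → ℕ) (l : ℕ) (hl : 0 < l)
    (hf : ford A m e u + e * l = N) (i0 : Fin n) (s : ℕ) (hlN : l < 2 * N + 1 + 1) :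
    Valid (sp A m c e) (Y0E k N u ∩ (QQ m c (amin m u) (fun i => (i, 0)) i0 ∩
        CC A m c e (del m u) l i0 s)) (ws m u i0 l s) N (yb (2 * N + 1) u) := by
  refine ⟨?_, hN, ?_, fun z hz => base_CC h3 A m c e he u l hl i0 s z hz.2.2, ?_⟩
  · refine Constr.inter ?_ ((constr_QQ m c _ _ i0).inter (constr_CC A m c e _ l i0 s))
    refine Constr.and ?_ ?_
    · refine Constr.all fun i => Constr.all fun j => Constr.imp' fun _ => ?_
      exact Constr.eqz (IsPF.coord _)
    · refine Constr.all fun i => Constr.imp' fun _ => ?_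
      exact Constr.ne (IsPF.coord _) IsPF.zero
  · rintro t ht z ⟨⟨hz1, hz2⟩, hz3, hz4⟩
    have ht0 : t ≠ 0 := by
      rintro rfl
      rw [zero_pow hN.ne'] at ht
      exact zero_ne_one ht
    refine ⟨⟨fun i j hj => ?_, fun i hi => ?_⟩, ?_, ?_⟩
    · show t ^ _ * z (i, j) = 0
      rw [hz1 i j hj, mul_zero]
    · exact mul_ne_zero (zpow_ne_zero _ ht0) (hz2 i hi)
    · exact QQ_stable m c u _ i0 _ (fun i _ => ws_zero m u i0 l s i) t ht0 z hz3
    · exact CC_stable h3 A m c e u i0 l s hlN N hf t ht0 ht z hz4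
  · intro i j h
    unfold yb at h
    split_ifs at h with h0
    rw [← Option.some.inj h, ws_zero, h0]
    rfl

theorem step (h2 : S_ESub) (h3 : S_Tay) (A : Fin n → ℕ) (m : Fin r → Fin n → ℕ)
    (c : Fin r → k) (e : ℕ) (M : EMeas (sp A m c e) R) (he : 0 < e) (N : ℕ) (hN : 0 < N)
    (u : Fin n → ℕ) (l : ℕ) (hf : ford A m e u + e * l = N) (i0 : Fin n)
    (hl : l ≤ 2 * N + 1 - u i0) (s : ℕ) (hs : s + 1 ≤ l) :
    M.χ _ (Y0E k N u ∩ (QQ m c (amin m u) (fun i => (i, 0)) i0 ∩
        CC A m c e (del m u) l i0 (s + 1))) (ws m u i0 l (s + 1)) N (yb (2 * N + 1) u) =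
      M.χ _ (Y0E k N u ∩ (QQ m c (amin m u) (fun i => (i, 0)) i0 ∩
        CC A m c e (del m u) l i0 s)) (ws m u i0 l s) N (yb (2 * N + 1) u) := by
  classical
  set τ := amin m u with hτ
  set δ := del m u with hδ
  have hlN : l < 2 * N + 1 + 1 := by omega
  have hsN : s + 1 < 2 * N + 1 + 1 := by omega
  set p : Fin n × Fin (2 * N + 1 + 1) := (i0, ⟨s + 1, hsN⟩) with hp
  have hp0 : ∀ i : Fin n, (i, (0 : Fin (2 * N + 1 + 1))) ≠ p := by
    intro i hc
    have := congrArg (fun p : Fin n × Fin (2 * N + 1 + 1) => (p.2 : ℕ)) hc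
    simp [hp] at this
  have hc0 : ∀ (z : Pt k (Fin n × Fin (2 * N + 1 + 1))) (w : AlgebraicClosure k) (i : Fin n),
      Function.update z p w (i, 0) = z (i, 0) := fun z w i => Function.update_of_ne (hp0 i) _ _
  have hw1 : ws m u i0 l (s + 1) p = (u i0 : ℤ) + ((s + 1 : ℕ) : ℤ) := by
    rw [ws_of_le m u i0 l (s + 1) p le_rfl]
    rfl
  have hw2 : ws m u i0 l s p = (gord m u : ℤ) + ((s + 1 : ℕ) : ℤ) := by
    unfold ws
    rw [if_pos ⟨rfl, Nat.lt_succ_self s, hs⟩]
  refine h2 M _ _ (ws m u i0 l (s + 1)) (ws m u i0 l s) N (yb (2 * N + 1) u) p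
    (fun y => dgbar m (cb c) τ i0 (fun i => y (i, 0)))
    (fun y => PowerSeries.coeff (s + 1) (gser m (cb c) δ (arc (Function.update y p 0))))
    (valid_V h3 A m c e he N hN u l (by omega) hf i0 (s + 1) hlN)
    (valid_V h3 A m c e he N hN u l (by omega) hf i0 s hlN) ?_ ?_ (IsPF_dgbar m c τ i0 _)
    ((IsPA_gser m c δ (s + 1)).comp (fun y => Function.update y p 0)
      (fun i => IsPF_update p i IsPF.zero)) ?_ ?_ ?_ ?_ ?_ ?_ ?_
  · intro j hj
    unfold ws
    by_cases h5 : j.1 = i0 ∧ s + 1 < (j.2 : ℕ) ∧ (j.2 : ℕ) ≤ l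
    · rw [if_pos h5, if_pos ⟨h5.1, by omega, h5.2.2⟩]
    · rw [if_neg h5, if_neg]
      rintro ⟨h6, h7, h8⟩
      have h9 : (j.2 : ℕ) = s + 1 := by
        by_contra hc
        exact h5 ⟨h6, by omega, h8⟩
      exact hj (Prod.ext h6 (Fin.ext h9))
  · intro j hj
    unfold yb at hj
    split_ifs at hj with h0
    exact hp0 j (Option.some.inj hj)
  · intro z w
    simp only [hc0]
  · intro z w
    simp only [Function.update_idem]
  · intro t ht z
    have ht0 : t ≠ 0 := by
      rintro rfl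
      rw [zero_pow hN.ne'] at ht
      exact zero_ne_one ht
    rw [hw1, hw2]
    simp only [dact_ws_zero]
    rw [dgbar_smul t ht0 u (fun i => (u i : ℤ)) m (cb c) i0 (fun i => z (i, 0)) fun _ _ => rfl]
    congr 2
    ring
  · intro t ht z
    have ht0 : t ≠ 0 := by
      rintro rfl
      rw [zero_pow hN.ne'] at ht
      exact zero_ne_one ht
    rw [hw2, ← coeff_gser_dact u m c t ht0 (Function.update z p 0) (s + 1)]
    refine (h3 m (cb c) δ _).2.1 (s + 1) _ ?_ (s + 1) le_rfl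
    intro i j hj
    by_cases h : j < 2 * N + 1 + 1
    · rw [coeff_arc _ _ _ h, coeff_arc _ _ _ h]
      by_cases h5 : (i, (⟨j, h⟩ : Fin (2 * N + 1 + 1))) = p
      · rw [h5, Function.update_self]
        show 0 = t ^ _ * Function.update z p 0 p
        rw [Function.update_self, mul_zero]
      · rw [Function.update_of_ne h5]
        show t ^ _ * z _ = t ^ _ * Function.update z p 0 _
        rw [Function.update_of_ne h5, ws_of_le m u i0 l (s + 1) (i, ⟨j, h⟩) hj]
    · rw [arc, arc, PowerSeries.coeff_mk, PowerSeries.coeff_mk, dif_neg h, dif_neg h]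
  · rintro z ⟨_, h, _⟩
    exact h.2
  · rintro z ⟨_, h, _⟩
    exact h.2
  · intro z _
    set w := (fun y : Pt k (Fin n × Fin (2 * N + 1 + 1)) =>
      dgbar m (cb c) τ i0 (fun i => y (i, 0))) z * z p +
      (fun y : Pt k (Fin n × Fin (2 * N + 1 + 1)) =>
        PowerSeries.coeff (s + 1) (gser m (cb c) δ (arc (Function.update y p 0)))) z with hw
    have hz0 : ∀ i, Function.update z p w (i, 0) = z (i, 0) := hc0 z w
    have hY : Function.update z p w ∈ Y0E k N u ↔ z ∈ Y0E k N u := by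
      have h5 : ∀ i (j : Fin (2 * N + 1 + 1)), 2 * N + 1 - u i < (j : ℕ) →
          Function.update z p w (i, j) = z (i, j) := by
        intro i j hj
        refine Function.update_of_ne ?_ _ _
        intro hc
        have h6 : i = i0 := congrArg Prod.fst hc
        have h7 : (j : ℕ) = s + 1 := congrArg (fun p : Fin n × Fin (2 * N + 1 + 1) => (p.2 : ℕ)) hc
        subst h6
        omega
      constructor
      · rintro ⟨h6, h7⟩
        refine ⟨fun i j hj => ?_, fun i hi => ?_⟩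
        · rw [← h5 i j hj]
          exact h6 i j hj
        · rw [← hz0 i]
          exact h7 i hi
      · rintro ⟨h6, h7⟩
        refine ⟨fun i j hj => ?_, fun i hi => ?_⟩
        · rw [h5 i j hj]
          exact h6 i j hj
        · rw [hz0 i]
          exact h7 i hi
    have hQ : Function.update z p w ∈ QQ m c τ (fun i => (i, (0 : Fin (2 * N + 1 + 1)))) i0 ↔
        z ∈ QQ m c τ (fun i => (i, (0 : Fin (2 * N + 1 + 1)))) i0 := by
      unfold QQ
      simp only [Set.mem_ofPred_eq, hz0]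
    have hvv : ∀ j, vv m c δ i0 s (Function.update z p w) j = vv m c δ i0 (s + 1) z j := by
      intro j
      unfold vv
      rcases lt_trichotomy j (s + 1) with hk | hk | hk
      · rw [if_pos (by omega), if_pos (by omega)]
        refine (h3 m (cb c) δ (arc z)).2.1 j _ ?_ j le_rfl
        intro i k' hk'
        exact coeff_arc_update z i0 (s + 1) hsN w i k' (by omega)
      · subst hk
        rw [if_neg (by omega), if_pos le_rfl]
        have h6 := (h3 m (cb c) δ (arc (Function.update z p 0))).2.2 (s + 1) i0 (z p) (by omega)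
        rw [← arc_update z i0 (s + 1) hsN] at h6
        rw [h6, hδ, filter_del]
        simp only [constantCoeff_arc]
        rw [coeff_arc _ _ _ hsN]
        show Function.update z p w p = _
        rw [Function.update_self, hw]
        simp only [hc0]
        ring
      · rw [if_neg (by omega), if_neg (by omega)]
        exact coeff_arc_update z i0 (s + 1) hsN w i0 j (by omega)
    have hC : Function.update z p w ∈ CC A m c e δ l i0 s ↔ z ∈ CC A m c e δ l i0 (s + 1) := by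
      unfold CC
      simp only [Set.mem_ofPred_eq, hz0, hvv]
    constructor
    · rintro ⟨h6, h7, h8⟩
      exact ⟨hY.2 h6, hQ.2 h7, hC.2 h8⟩
    · rintro ⟨h6, h7, h8⟩
      exact ⟨hY.1 h6, hQ.1 h7, hC.1 h8⟩

theorem steps (h2 : S_ESub) (h3 : S_Tay) (A : Fin n → ℕ) (m : Fin r → Fin n → ℕ)
    (c : Fin r → k) (e : ℕ) (M : EMeas (sp A m c e) R) (he : 0 < e) (N : ℕ) (hN : 0 < N)
    (u : Fin n → ℕ) (l : ℕ) (hf : ford A m e u + e * l = N) (i0 : Fin n)
    (hl : l ≤ 2 * N + 1 - u i0) (s : ℕ) (hs : s ≤ l) :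
    M.χ _ (Y0E k N u ∩ (QQ m c (amin m u) (fun i => (i, 0)) i0 ∩
        CC A m c e (del m u) l i0 s)) (ws m u i0 l s) N (yb (2 * N + 1) u) =
      M.χ _ (Y0E k N u ∩ (QQ m c (amin m u) (fun i => (i, 0)) i0 ∩
        CC A m c e (del m u) l i0 0)) (ws m u i0 l 0) N (yb (2 * N + 1) u) := by
  induction s with
  | zero => rfl
  | succ s ih => rw [step h2 h3 A m c e M he N hN u l hf i0 hl s hs, ih (by omega)]

end Step

section Base

variable {k : Type} [Field k] {n r : ℕ} {R : Type} [CommRing R]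

theorem stable_some (A : Fin n → ℕ) (m : Fin r → Fin n → ℕ) (J : Finset (Fin n))
    (u : Fin n → ℕ) (l : ℕ) (i : Fin n) (hi : ∃ j ∈ amin m u, m j i ≠ 0) :
    bw1 A m J (amin m u) u l (some i) = u i := by
  show (if i ∈ free A m J (amin m u) then 0 else (u i : ℤ)) = u i
  rw [if_neg]
  intro hc
  obtain ⟨j, hj, hm⟩ := hi
  exact hm (((mem_free A m J (amin m u) i).1 hc).2.2 j hj)

theorem valid_B1 (A : Fin n → ℕ) (m : Fin r → Fin n → ℕ) (c : Fin r → k)
    (e : ℕ) (he : 0 < e) (J : Finset (Fin n)) (N : ℕ) (hN : 0 < N) (u : Fin n → ℕ)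
    (hA : Adm J u) (l : ℕ) (hf : ford A m e u + e * l = N) :
    Valid (sp A m c e) (EB1 A m c e J (amin m u)) (bw1 A m J (amin m u) u l) N (bb1 J) := by
  have hJ : ∀ i, i ∈ J ↔ u i ≠ 0 := fun i => (hA i).symm
  refine ⟨?_, hN, ?_, ?_, ?_⟩
  · refine Constr.and ?_ (Constr.and ?_ (Constr.and ?_ ?_))
    · exact Constr.all fun i => Constr.ne (IsPF.coord _) IsPF.zero
    · exact Constr.ballFinset _ fun i _ => Constr.eq (IsPF.coord _) IsPF.one
    · exact Constr.eqz (IsPF_gbar m c _ some)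
    · exact Constr.eq ((IsPF_prod A some).mul ((IsPF.coord none).pow e)) IsPF.one
  · rintro t ht z ⟨hz1, hz2, hz3, hz4⟩
    have ht0 : t ≠ 0 := by
      rintro rfl
      rw [zero_pow hN.ne'] at ht
      exact zero_ne_one ht
    refine ⟨fun i => mul_ne_zero (zpow_ne_zero _ ht0) (hz1 i), fun i hi => ?_, ?_, ?_⟩
    · show t ^ (if i ∈ free A m J (amin m u) then 0 else (u i : ℤ)) * z (some i) = 1
      rw [if_pos hi, zpow_zero, one_mul]
      exact hz2 i hi
    · show gbar m (cb c) (amin m u)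
        (fun i => t ^ bw1 A m J (amin m u) u l (some i) * z (some i)) = 0
      rw [gbar_smul t u (fun i => bw1 A m J (amin m u) u l (some i)) m (cb c)
        (fun i => z (some i)) (stable_some A m J u l), hz3, mul_zero]
    · show (∏ i, (t ^ bw1 A m J (amin m u) u l (some i) * z (some i)) ^ A i) *
        (t ^ ((gord m u : ℤ) + l) * z none) ^ e = 1
      rw [prod_smul t u (fun i => bw1 A m J (amin m u) u l (some i)) A (fun i => z (some i))
        fun i hi => ?_]
      · exact final_eq m e u N l hf t ht _ _ hz4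
      · show (if i ∈ free A m J (amin m u) then 0 else (u i : ℤ)) = u i
        rw [if_neg]
        intro hc
        exact hi ((mem_free A m J (amin m u) i).1 hc).2.1
  · rintro z ⟨hz1, hz2, hz3, hz4⟩
    refine base_gbar A m c e he u _ (fun i => z (some i)) ?_ ?_ hz3
    · intro i hi
      unfold cbase bb1
      rw [if_pos ((hJ i).2 hi)]
      rfl
    · intro i hi
      unfold cbase bb1
      rw [if_neg fun hc => (hJ i).1 hc hi]
      rfl
  · intro i j h
    unfold bb1 at h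
    split_ifs at h with h0
    rw [← Option.some.inj h]
    show (if i ∈ free A m J (amin m u) then 0 else (u i : ℤ)) = 0
    split_ifs with h3
    · rfl
    · have : u i = 0 := by
        by_contra hc
        exact h0 ((hJ i).2 hc)
      rw [this]
      rfl

theorem QQ_some_stable (A : Fin n → ℕ) (m : Fin r → Fin n → ℕ) (c : Fin r → k)
    (J : Finset (Fin n)) (N : ℕ) (hN : 0 < N) (u : Fin n → ℕ) (l : ℕ) (i0 : Fin n)
    (t : AlgebraicClosure k) (ht : t ^ N = 1) (z : Pt k (Option (Fin n)))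
    (hz : z ∈ QQ m c (amin m u) some i0) :
    dact (bw1 A m J (amin m u) u l) t z ∈ QQ m c (amin m u) some i0 := by
  have ht0 : t ≠ 0 := by
    rintro rfl
    rw [zero_pow hN.ne'] at ht
    exact zero_ne_one ht
  exact QQ_stable m c u some i0 _ (stable_some A m J u l) t ht0 z hz

theorem base (h1 : S_EFree) (h3 : S_Tay) (A : Fin n → ℕ) (m : Fin r → Fin n → ℕ)
    (c : Fin r → k) (e : ℕ) (M : EMeas (sp A m c e) R) (J : Finset (Fin n))
    (he : 0 < e) (N : ℕ) (hN : 0 < N) (u : Fin n → ℕ) (hA : Adm J u) (l : ℕ)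
    (hf : ford A m e u + e * l = N)
    (hl : 1 ≤ l) (i0 : Fin n) (hi0 : i0 ∉ free A m J (amin m u)) (hl2 : l ≤ 2 * N + 1 - u i0) :
    M.χ _ (Y0E k N u ∩ (QQ m c (amin m u) (fun i => (i, 0)) i0 ∩
        CC A m c e (del m u) l i0 0)) (ws m u i0 l 0) N (yb (2 * N + 1) u) * M.L ^ l =
      M.χ _ (EB1 A m c e J (amin m u) ∩ QQ m c (amin m u) some i0)
          (bw1 A m J (amin m u) u l) N (bb1 J) *
        (M.L - 1) ^ ((free A m J (amin m u)).filter fun i => u i ≤ N).card *
        M.L ^ ((free A m J (amin m u)).filter fun i => ¬ u i ≤ N).card *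
        M.L ^ (∑ i, (2 * N + 1 - u i)) := by
  classical
  have hJ : ∀ i, i ∈ J ↔ u i ≠ 0 := fun i => (hA i).symm
  have hfN : ford A m e u ≤ N := by omega
  set τ := amin m u with hτ
  set δ := del m u with hδ
  set Fr := free A m J τ with hFr
  have hFJ : ∀ i ∈ Fr, i ∈ J ∧ A i = 0 ∧ ∀ j ∈ τ, m j i = 0 := fun i hi =>
    (mem_free A m J τ i).1 hi
  have hlN : l < 2 * N + 1 + 1 := by omega
  have h00 : ((0 : Fin (2 * N + 1 + 1)) : ℕ) = 0 := rfl
  have ht00 : ∀ t : AlgebraicClosure k, t ^ N = 1 → t ≠ 0 := by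
    rintro t ht rfl
    rw [zero_pow hN.ne'] at ht
    exact zero_ne_one ht
  set T : Set (Pt k (Fin n × Fin (2 * N + 1 + 1))) :=
    QQ m c τ (fun i => (i, 0)) i0 ∩ CC A m c e δ l i0 0 with hT
  have hTc : Constr T := (constr_QQ m c τ _ i0).inter (constr_CC A m c e δ l i0 0)
  have hbase : ∀ z ∈ T, MvPolynomial.aeval (cbase (yb (2 * N + 1) u) z) (sp A m c e) = 0 :=
    fun z hz => base_CC h3 A m c e he u l hl i0 0 z hz.2
  have hTst : ∀ t : AlgebraicClosure k, t ^ N = 1 → ∀ z ∈ T, dact (ws m u i0 l 0) t z ∈ T :=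
    fun t ht z hz => ⟨QQ_stable m c u _ i0 _ (fun i _ => ws_zero m u i0 l 0 i) t (ht00 t ht) z hz.1,
      CC_stable h3 A m c e u i0 l 0 hlN N hf t (ht00 t ht) ht z hz.2⟩
  -- the values of `v_k` at level `0`
  have hv0 : ∀ y : Pt k (Fin n × Fin (2 * N + 1 + 1)),
      vv m c δ i0 0 y 0 = gbar m (cb c) τ (fun i => y (i, 0)) := by
    intro y
    unfold vv
    rw [if_pos le_rfl, (h3 m (cb c) δ (arc y)).1, hδ, filter_del]
    simp only [constantCoeff_arc]
    exact rfl
  have hv1 : ∀ (y : Pt k (Fin n × Fin (2 * N + 1 + 1))) (j : ℕ) (hj : 0 < j)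
      (hjN : j < 2 * N + 1 + 1), vv m c δ i0 0 y j = y (i0, ⟨j, hjN⟩) := by
    intro y j hj hjN
    unfold vv
    rw [if_neg (by omega), coeff_arc _ _ _ hjN]
  have hdep : ∀ y w : Pt k (Fin n × Fin (2 * N + 1 + 1)), (∀ i, i ∉ Fr → w (i, 0) = y (i, 0)) →
      (∀ p ∈ EE N l i0, w p = y p) → y ∈ T → w ∈ T := by
    intro y w h h' hy
    have hτ0 : ∀ i, (∃ j ∈ τ, m j i ≠ 0) → w (i, 0) = y (i, 0) := by
      intro i hi
      refine h i fun hc => ?_
      obtain ⟨j, hj, hm⟩ := hi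
      exact hm ((hFJ i hc).2.2 j hj)
    have hd : ∀ i, dgbar m (cb c) τ i (fun i => w (i, 0)) =
        dgbar m (cb c) τ i (fun i => y (i, 0)) := fun i => dgbar_congr m (cb c) τ i _ _ hτ0
    have hg : gbar m (cb c) τ (fun i => w (i, 0)) = gbar m (cb c) τ (fun i => y (i, 0)) :=
      gbar_congr m (cb c) τ _ _ hτ0
    have hp : ∏ i, w (i, 0) ^ A i = ∏ i, y (i, 0) ^ A i := by
      refine prod_congr' A (fun i => w (i, 0)) (fun i => y (i, 0)) fun i hi => ?_
      exact h i fun hc => hi (hFJ i hc).2.1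
    have hv : ∀ j ≤ l, vv m c δ i0 0 w j = vv m c δ i0 0 y j := by
      intro j hj
      rcases Nat.eq_zero_or_pos j with rfl | hj0
      · rw [hv0, hv0, hg]
      · rw [hv1 _ j hj0 (by omega), hv1 _ j hj0 (by omega)]
        exact h' _ (mem_EE.2 ⟨rfl, hj0, hj⟩)
    obtain ⟨⟨h5, h6⟩, h7, h8⟩ := hy
    refine ⟨⟨fun i hi => ?_, ?_⟩, fun j hj => ?_, ?_⟩
    · rw [hd]
      exact h5 i hi
    · rw [hd]
      exact h6
    · rw [hv j hj.le]
      exact h7 j hj
    · rw [hp, hv l le_rfl]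
      exact h8
  have hE : EE N l i0 ⊆ Qs N u := by
    intro p hp
    obtain ⟨h5, h6, h7⟩ := mem_EE.1 hp
    refine mem_Qs.2 ⟨h6, ?_⟩
    rw [h5]
    omega
  have hx : ∀ i ∈ Fr, u i ≠ 0 := fun i hi => (hJ i).1 (hFJ i hi).1
  have hWz : ∀ i, u i = 0 → ws (N := 2 * N + 1) m u i0 l 0 (i, 0) = 0 := by
    intro i hi
    rw [ws_zero, hi]
    rfl
  have key := freeW h1 M N u (ws m u i0 l 0) hN hWz Fr hx
    (fun i hi => le_of_not_free A m e J u N he hA hfN i hi) (EE N l i0) hE T hTc hbase hTst hdep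
  rw [card_EE N l i0 hlN] at key
  rw [key]
  congr 3
  have hVN := valid_NrmW (f := sp A m c e) N u (ws m u i0 l 0) hN hWz Fr hx (EE N l i0) hE T hTc
    hbase hTst hdep
  have hVB := valid_inter (f := sp A m c e) _ (QQ m c τ some i0) _ N _
    (valid_B1 A m c e he J N hN u hA l hf) (constr_QQ m c τ some i0)
    (fun t ht z hz => QQ_some_stable A m c J N hN u l i0 t ht z hz)
  refine M.iso _ _ _ _ _ _ _ _ hVN hVB
    (fun y o => match o with
      | none => y (i0, ⟨l, hlN⟩)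
      | some i => y (i, 0))
    (fun z p => if (p.2 : ℕ) = 0 then z (some p.1) else
      if p = (i0, ⟨l, hlN⟩) then z none else 0) ?_ ?_ ?_ ?_ ?_ ?_ ?_ ?_
  · refine regularOn_poly (fun o => ?_) _
    cases o with
    | none => exact IsPF.coord _
    | some i => exact IsPF.coord _
  · refine regularOn_poly (fun p => ?_) _
    by_cases h : (p.2 : ℕ) = 0
    · simpa only [if_pos h] using IsPF.coord (K := k) (some p.1)
    · by_cases h' : p = (i0, ⟨l, hlN⟩)
      · simpa only [if_neg h, if_pos h'] using IsPF.coord (K := k) (none : Option (Fin n))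
      · simpa only [if_neg h, if_neg h'] using IsPF.zero (K := k)
  · rintro y ⟨⟨hy1, hy2, hy4⟩, hy5, hy6, hy7⟩
    refine ⟨⟨?_, hy4, ?_, ?_⟩, hy5⟩
    · intro i
      by_cases h : i ∈ Fr
      · show y (i, 0) ≠ 0
        rw [hy4 i h]
        exact one_ne_zero
      · exact hy2 i h
    · have := hy6 0 hl
      rw [hv0] at this
      exact this
    · rw [hv1 y l hl hlN] at hy7
      exact hy7
  · rintro z ⟨⟨hz1, hz3, hz4, hz5⟩, hz6⟩
    set y : Pt k (Fin n × Fin (2 * N + 1 + 1)) := (fun p => if (p.2 : ℕ) = 0 then z (some p.1) else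
      if p = (i0, ⟨l, hlN⟩) then z none else 0) with hy
    have hy0 : ∀ i, y (i, 0) = z (some i) := fun i => if_pos h00
    have hyl : y (i0, ⟨l, hlN⟩) = z none := by
      show (if l = 0 then z (some i0) else
        if ((i0, ⟨l, hlN⟩) : Fin n × Fin (2 * N + 1 + 1)) = (i0, ⟨l, hlN⟩) then z none else 0) = _
      rw [if_neg (by omega), if_pos rfl]
    change y ∈ NrmE N Fr (EE N l i0) T
    refine ⟨⟨?_, ?_, ?_⟩, ?_, ?_, ?_⟩
    · intro p hp hpE
      show (if (p.2 : ℕ) = 0 then z (some p.1) else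
        if p = (i0, ⟨l, hlN⟩) then z none else 0) = 0
      rw [if_neg hp.ne', if_neg]
      rintro rfl
      exact hpE (mem_EE.2 ⟨rfl, hp, le_rfl⟩)
    · intro i hi
      rw [hy0]
      exact hz1 i
    · intro i hi
      rw [hy0]
      exact hz3 i hi
    · show (∀ i, i < i0 → dgbar m (cb c) τ i (fun i => y (i, 0)) = 0) ∧
        dgbar m (cb c) τ i0 (fun i => y (i, 0)) ≠ 0
      simp only [hy0]
      exact hz6
    · intro j hj
      rcases Nat.eq_zero_or_pos j with rfl | hj0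
      · rw [hv0]
        simp only [hy0]
        exact hz4
      · rw [hv1 _ j hj0 (by omega)]
        show (if j = 0 then z (some i0) else
          if ((i0, ⟨j, _⟩) : Fin n × Fin (2 * N + 1 + 1)) = (i0, ⟨l, hlN⟩) then z none else 0) = 0
        rw [if_neg (by omega), if_neg]
        intro hc
        have := congrArg (fun p : Fin n × Fin (2 * N + 1 + 1) => (p.2 : ℕ)) hc
        simp at this
        omega
    · show (∏ i, y (i, 0) ^ A i) * (vv m c δ i0 0 y l) ^ e = 1
      rw [hv1 y l hl hlN, hyl]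
      simp only [hy0]
      exact hz5
  · rintro y ⟨⟨hy1, hy2, hy4⟩, hy5, hy6, hy7⟩
    funext p
    show (if (p.2 : ℕ) = 0 then y (p.1, 0) else
      if p = (i0, ⟨l, hlN⟩) then y (i0, ⟨l, hlN⟩) else 0) = y p
    by_cases h : (p.2 : ℕ) = 0
    · rw [if_pos h]
      congr 1
      refine Prod.ext rfl ?_
      exact Fin.ext h.symm
    · rw [if_neg h]
      by_cases h' : p = (i0, ⟨l, hlN⟩)
      · rw [if_pos h', h']
      · rw [if_neg h']
        by_cases hE' : p ∈ EE N l i0
        · obtain ⟨h8, h9, h10⟩ := mem_EE.1 hE'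
          have hlt : (p.2 : ℕ) < l := by
            rcases Nat.lt_or_ge (p.2 : ℕ) l with h11 | h11
            · exact h11
            · exfalso
              apply h'
              exact Prod.ext h8 (Fin.ext (le_antisymm h10 h11))
          have := hy6 (p.2 : ℕ) hlt
          rw [hv1 y _ h9 p.2.isLt] at this
          rw [← this]
          congr 1
          exact Prod.ext h8.symm rfl
        · exact (hy1 p (Nat.pos_of_ne_zero h) hE').symm
  · rintro z _
    funext o
    cases o with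
    | none =>
      show (if l = 0 then z (some i0) else
        if ((i0, ⟨l, hlN⟩) : Fin n × Fin (2 * N + 1 + 1)) = (i0, ⟨l, hlN⟩) then z none else 0) = _
      rw [if_neg (by omega), if_pos rfl]
    | some i => exact if_pos h00
  · intro z _
    funext i
    unfold cbase bb1 yb
    by_cases h : i ∈ J
    · rw [if_pos h, if_neg ((hJ i).1 h)]
      rfl
    · have : u i = 0 := by
        by_contra hc
        exact h ((hJ i).2 hc)
      rw [if_neg h, if_pos this]
      rfl
  · intro t ht z _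
    funext o
    cases o with
    | none =>
      show (t ^ N) ^ nwW N u (ws m u i0 l 0) Fr (EE N l i0) (i0, ⟨l, hlN⟩) * z (i0, ⟨l, hlN⟩) =
        (t ^ N) ^ ((gord m u : ℤ) + l) * z (i0, ⟨l, hlN⟩)
      congr 2
      unfold nwW
      rw [if_neg]
      · unfold ws
        rw [if_pos ⟨rfl, hl, le_rfl⟩]
      · rintro (⟨_, h⟩ | ⟨_, h⟩)
        · have h5 : l = 0 := congrArg (fun j : Fin (2 * N + 1 + 1) => (j : ℕ)) h
          omega
        · exact h (mem_EE.2 ⟨rfl, hl, le_rfl⟩)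
    | some i =>
      show (t ^ N) ^ nwW N u (ws m u i0 l 0) Fr (EE N l i0) (i, 0) * z (i, 0) =
        (t ^ N) ^ (if i ∈ free A m J τ then 0 else (u i : ℤ)) * z (i, 0)
      congr 2
      unfold nwW
      by_cases h : i ∈ Fr
      · rw [if_pos (Or.inl ⟨h, rfl⟩), if_pos h]
      · rw [if_neg, if_neg h]
        · exact ws_zero m u i0 l 0 i
        · rintro (⟨h5, _⟩ | ⟨h5, _⟩)
          · exact h h5
          · exact absurd (mem_Qs.1 h5).1 (lt_irrefl 0)

end Base

theorem main (h1 : S_EFree) (h2 : S_ESub) (h3 : S_Tay) (h4 : S_Non) : S_EStC := by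
  intro K _ _ n r A m c e R _ M hAff hc hr he J N hN u hA hu l hl hf
  classical
  have hN0 : 0 < N := hN
  have hJ : ∀ i, i ∈ J ↔ u i ≠ 0 := fun i => (hA i).symm
  set τ := amin m u with hτ
  set δ := del m u with hδ
  have hτne : τ.Nonempty := amin_nonempty m u hr
  have hcb : ∀ j, cb c j ≠ 0 := fun j => (map_ne_zero _).2 (hc j)
  have hlN : l ≤ N := by
    have : l ≤ e * l := Nat.le_mul_of_pos_left _ he
    omega
  have hfN : ford A m e u ≤ N := by omega
  have ht00 : ∀ t : AlgebraicClosure K, t ^ N = 1 → t ≠ 0 := by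
    rintro t ht rfl
    rw [zero_pow hN0.ne'] at ht
    exact zero_ne_one ht
  set W : Set (Pt K (Fin n × Fin (2 * N + 1 + 1))) :=
    {y | (∀ k < l, PowerSeries.coeff k (gser m (cb c) δ (arc y)) = 0) ∧
        (∏ i, y (i, 0) ^ A i) *
          (PowerSeries.coeff l (gser m (cb c) δ (arc y))) ^ e = 1} with hW
  have hWC : ∀ i0, W = CC A m c e δ l i0 l := by
    intro i0
    have hv : ∀ (y : Pt K (Fin n × Fin (2 * N + 1 + 1))) (k : ℕ), k ≤ l →
        vv m c δ i0 l y k = PowerSeries.coeff k (gser m (cb c) δ (arc y)) := fun y k hk =>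
      if_pos hk
    ext y
    constructor
    · rintro ⟨h5, h6⟩
      refine ⟨fun k hk => ?_, ?_⟩
      · rw [hv y k hk.le]
        exact h5 k hk
      · rw [hv y l le_rfl]
        exact h6
    · rintro ⟨h5, h6⟩
      refine ⟨fun k hk => ?_, ?_⟩
      · rw [← hv y k hk.le]
        exact h5 k hk
      · rw [← hv y l le_rfl]
        exact h6
  have hWc : Constr W := by
    refine Constr.and ?_ ?_
    · exact Constr.allLt l fun k _ => Constr.eqz (IsPA_gser m c δ k)
    · exact Constr.eq ((IsPF_prod A fun i => (i, 0)).mul ((IsPA_gser m c δ l).pow e)) IsPF.one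
  have hVW : Valid (sp A m c e) (Y0E K N u ∩ W) (yw (2 * N + 1) u) N (yb (2 * N + 1) u) := by
    refine ⟨?_, hN0, ?_, ?_, ?_⟩
    · refine Constr.inter ?_ hWc
      refine Constr.and ?_ ?_
      · refine Constr.all fun i => Constr.all fun j => Constr.imp' fun _ => ?_
        exact Constr.eqz (IsPF.coord _)
      · refine Constr.all fun i => Constr.imp' fun _ => ?_
        exact Constr.ne (IsPF.coord _) IsPF.zero
    · rintro t ht z ⟨⟨hz1, hz2⟩, hz3, hz4⟩
      have ht0 := ht00 t ht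
      refine ⟨⟨fun i j hj => ?_, fun i hi => ?_⟩, fun k hk => ?_, ?_⟩
      · show t ^ _ * z (i, j) = 0
        rw [hz1 i j hj, mul_zero]
      · exact mul_ne_zero (zpow_ne_zero _ ht0) (hz2 i hi)
      · rw [hδ, coeff_gser_dact u m c t ht0 z k, hz3 k hk, mul_zero]
      · rw [hδ, coeff_gser_dact u m c t ht0 z l]
        simp only [dact_yw_zero]
        rw [prod_smul t u (fun i => (u i : ℤ)) A (fun i => z (i, 0)) fun _ _ => rfl]
        exact final_eq m e u N l hf t ht _ _ hz4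
    · rintro z ⟨_, hz3, _⟩
      refine base_gbar A m c e he u _ (fun i => z (i, 0)) ?_ ?_ ?_
      · intro i hi
        unfold cbase yb
        rw [if_neg hi]
        rfl
      · intro i hi
        unfold cbase yb
        rw [if_pos hi]
        rfl
      · have h5 := hz3 0 hl
        rw [(h3 m (cb c) δ (arc z)).1, hδ, filter_del] at h5
        simp only [constantCoeff_arc] at h5
        exact h5
    · intro i j h
      unfold yb at h
      split_ifs at h with h0
      rw [← Option.some.inj h]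
      show (u i : ℤ) + (((0 : Fin (2 * N + 1 + 1)) : ℕ) : ℤ) = 0
      rw [h0]
      rfl
  have hst1 : ∀ i0, ∀ t : AlgebraicClosure K, t ^ N = 1 →
      ∀ z ∈ QQ m c τ (fun i => (i, (0 : Fin (2 * N + 1 + 1)))) i0,
      dact (yw (2 * N + 1) u) t z ∈ QQ m c τ (fun i => (i, (0 : Fin (2 * N + 1 + 1)))) i0 := by
    intro i0 t ht z hz
    refine QQ_stable m c u _ i0 _ (fun i _ => ?_) t (ht00 t ht) z hz
    show (u i : ℤ) + (((0 : Fin (2 * N + 1 + 1)) : ℕ) : ℤ) = u i
    have h0 : (((0 : Fin (2 * N + 1 + 1)) : ℕ) : ℤ) = 0 := rfl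
    rw [h0, add_zero]
  have hVB := valid_B1 A m c e he J N hN0 u hA l hf
  have e1 : M.χ _ (Y0E K N u ∩ W) (yw (2 * N + 1) u) N (yb (2 * N + 1) u) =
      ∑ i0, M.χ _ ((Y0E K N u ∩ W) ∩
        QQ m c τ (fun i => (i, (0 : Fin (2 * N + 1 + 1)))) i0)
        (yw (2 * N + 1) u) N (yb (2 * N + 1) u) := by
    refine χE_cover M _ _ _ _ _ hVW (fun i0 => constr_QQ m c τ _ i0) hst1
      (fun a b h => QQ_disjoint m c τ _ a b h) ?_
    rintro y ⟨⟨hy1, hy2⟩, hy4, hy5⟩
    refine QQ_cover m c τ _ y ?_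
    refine h4 m (cb c) τ (fun i => y (i, 0)) hAff hcb hτne ?_ ?_
    · rintro i ⟨j, hj, hm⟩
      refine hy2 i (le_of_not_free A m e J u N he hA hfN i ?_)
      intro hcf
      exact hm (((mem_free A m J τ i).1 hcf).2.2 j hj)
    · have := hy4 0 hl
      rw [(h3 m (cb c) δ (arc y)).1, hδ, filter_del] at this
      simp only [constantCoeff_arc] at this
      exact this
  have e2 : M.χ _ (EB1 A m c e J τ) (bw1 A m J τ u l) N (bb1 J) =
      ∑ i0, M.χ _ (EB1 A m c e J τ ∩ QQ m c τ some i0) (bw1 A m J τ u l) N (bb1 J) := by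
    refine χE_cover M _ _ _ _ _ hVB (fun i0 => constr_QQ m c τ _ i0)
      (fun i0 t ht z hz => QQ_some_stable A m c J N hN0 u l i0 t ht z hz)
      (fun a b h => QQ_disjoint m c τ _ a b h) ?_
    rintro z ⟨hz1, hz3, hz4, hz5⟩
    refine QQ_cover m c τ _ z ?_
    exact h4 m (cb c) τ (fun i => z (some i)) hAff hcb hτne (fun i _ => hz1 i) hz4
  rw [e1, e2, Finset.sum_mul, Finset.sum_mul, Finset.sum_mul, Finset.sum_mul]
  refine Finset.sum_congr rfl fun i0 _ => ?_
  by_cases hi0 : i0 ∈ free A m J τ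
  · have hd : ∀ z : Fin n → AlgebraicClosure K, dgbar m (cb c) τ i0 z = 0 := fun z =>
      dgbar_zero m (cb c) τ i0 z ((mem_free A m J τ i0).1 hi0).2.2
    have h5 : (Y0E K N u ∩ W) ∩ QQ m c τ (fun i => (i, (0 : Fin (2 * N + 1 + 1)))) i0 = ∅ := by
      rw [Set.eq_empty_iff_forall_notMem]
      rintro y ⟨_, _, h6⟩
      exact h6 (hd _)
    have h6 : EB1 A m c e J τ ∩ QQ m c τ some i0 = ∅ := by
      rw [Set.eq_empty_iff_forall_notMem]
      rintro y ⟨_, _, h6⟩
      exact h6 (hd _)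
    rw [h5, h6, χE_empty M _ _ _ hN0 hVW.inv, χE_empty M _ _ _ hN0 hVB.inv]
    ring
  · have hui : u i0 ≤ N := le_of_not_free A m e J u N he hA hfN i0 hi0
    have hl2 : l ≤ 2 * N + 1 - u i0 := by omega
    rw [← base h1 h3 A m c e M J he N hN0 u hA l hf hl i0 hi0 hl2,
      ← steps h2 h3 A m c e M he N hN0 u l hf i0 hl2 l le_rfl, ← hWC i0, ws_self]
    congr 2
    rw [Set.inter_assoc, Set.inter_comm W]

end Pool.Agent.W749.ME.EStC
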