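import Pool.Agent.W749.ME.FreeE

/-!
# Project ME: semi-invariance of the face polynomials, the base point
-/

set_option autoImplicit false

namespace Pool.Agent.W749.ME

open Pool.Agent.W428.MOT Pool.Agent.W749.MT
open Pool.Agent.W426.SM (AffInd gord ford)

section Semi

variable {F : Type} [Field F] {n r : ℕ}

theorem zpow_prod_nat (l : F) (u : Fin n → ℕ) (a : Fin n → ℕ) :
    ∏ i, (l ^ (u i : ℤ)) ^ a i = l ^ (∑ i, u i * a i) := by
  rw [← Finset.prod_pow_eq_pow_sum]
  refine Finset.prod_congr rfl fun i _ => ?_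
  rw [zpow_natCast, ← pow_mul]

/-- the product `∏ z ^ A` -/
theorem prod_smul (l : F) (u : Fin n → ℕ) (w : Fin n → ℤ) (A : Fin n → ℕ) (z : Fin n → F)
    (hw : ∀ i, A i ≠ 0 → w i = u i) :
    ∏ i, (l ^ w i * z i) ^ A i = l ^ (∑ i, u i * A i) * ∏ i, z i ^ A i := by
  rw [← zpow_prod_nat, ← Finset.prod_mul_distrib]
  refine Finset.prod_congr rfl fun i _ => ?_
  by_cases h : A i = 0
  · rw [h, pow_zero, pow_zero, pow_zero, one_mul]
  · rw [hw i h, mul_pow]

theorem gbar_smul (l : F) (u : Fin n → ℕ) (w : Fin n → ℤ) (m : Fin r → Fin n → ℕ) (c : Fin r → F)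
    (z : Fin n → F) (hw : ∀ i, (∃ j ∈ amin m u, m j i ≠ 0) → w i = u i) :
    gbar m c (amin m u) (fun i => l ^ w i * z i) = l ^ gord m u * gbar m c (amin m u) z := by
  unfold gbar
  rw [Finset.mul_sum]
  refine Finset.sum_congr rfl fun j hj => ?_
  rw [prod_smul l u w (m j) z fun i hi => hw i ⟨j, hj, hi⟩, (mem_amin m u j).1 hj]
  ring

theorem dgbar_smul (l : F) (hl : l ≠ 0) (u : Fin n → ℕ) (w : Fin n → ℤ) (m : Fin r → Fin n → ℕ)
    (c : Fin r → F) (i0 : Fin n) (z : Fin n → F)
    (hw : ∀ i, (∃ j ∈ amin m u, m j i ≠ 0) → w i = u i) :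
    dgbar m c (amin m u) i0 (fun i => l ^ w i * z i) =
      l ^ ((gord m u : ℤ) - u i0) * dgbar m c (amin m u) i0 z := by
  unfold dgbar
  rw [Finset.mul_sum]
  refine Finset.sum_congr rfl fun j hj => ?_
  by_cases h0 : m j i0 = 0
  · rw [h0, Nat.cast_zero, zero_mul, zero_mul, mul_zero, mul_zero]
  · rw [prod_smul l u w (fun i => m j i - if i = i0 then 1 else 0) z fun i hi => ?_]
    · have h1 : ∑ i, u i * (m j i - if i = i0 then 1 else 0) + u i0 = gord m u := by
        rw [← (mem_amin m u j).1 hj]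
        have h2 : ∑ i, u i * (if i = i0 then 1 else 0) = u i0 := by
          simp
        rw [← h2, ← Finset.sum_add_distrib]
        refine Finset.sum_congr rfl fun i _ => ?_
        rw [← mul_add]
        congr 1
        by_cases hi : i = i0
        · subst hi
          rw [if_pos rfl]
          omega
        · rw [if_neg hi]
          rfl
      have h3 : l ^ ((gord m u : ℤ) - u i0) =
          l ^ (∑ i, u i * (m j i - if i = i0 then 1 else 0)) := by
        rw [← h1, Nat.cast_add, add_sub_cancel_right, zpow_natCast]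
      rw [h3]
      ring
    · refine hw i ⟨j, hj, ?_⟩
      omega

/-- substitution of scaled and rescaled power series -/
theorem gser_smul (l : F) (u : Fin n → ℕ) (m : Fin r → Fin n → ℕ) (c : Fin r → F)
    (y : Fin n → PowerSeries F) :
    gser m c (del m u) (fun i => PowerSeries.C (l ^ u i) * PowerSeries.rescale l (y i)) =
      PowerSeries.C (l ^ gord m u) * PowerSeries.rescale l (gser m c (del m u) y) := by
  unfold gser
  rw [map_sum, Finset.mul_sum]
  refine Finset.sum_congr rfl fun j _ => ?_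
  have h1 : ∏ i, (PowerSeries.C (l ^ u i) * PowerSeries.rescale l (y i)) ^ m j i =
      PowerSeries.C (l ^ (∑ i, u i * m j i)) * PowerSeries.rescale l (∏ i, y i ^ m j i) := by
    rw [map_prod, ← Finset.prod_pow_eq_pow_sum, map_prod, ← Finset.prod_mul_distrib]
    refine Finset.prod_congr rfl fun i _ => ?_
    rw [mul_pow, ← map_pow, ← map_pow, ← pow_mul]
  have h2 : ∑ i, u i * m j i = gord m u + del m u j := by
    unfold del
    have := gord_le m u j
    omega
  have h3 : PowerSeries.rescale l (PowerSeries.X : PowerSeries F) =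
      PowerSeries.C l * PowerSeries.X := by
    ext d
    rw [PowerSeries.coeff_rescale, PowerSeries.coeff_C_mul, PowerSeries.coeff_X]
    split_ifs with hd
    · rw [hd, pow_one]
    · rw [mul_zero, mul_zero]
  have h4 : PowerSeries.rescale l (PowerSeries.C (c j)) = PowerSeries.C (c j) := by
    ext d
    rw [PowerSeries.coeff_rescale, PowerSeries.coeff_C]
    split_ifs with hd
    · rw [hd, pow_zero, one_mul]
    · rw [mul_zero]
  have h5 : PowerSeries.rescale l (PowerSeries.C (c j) * PowerSeries.X ^ del m u j *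
      ∏ i, y i ^ m j i) = PowerSeries.C (c j) * (PowerSeries.C l * PowerSeries.X) ^ del m u j *
      PowerSeries.rescale l (∏ i, y i ^ m j i) := by
    rw [map_mul, map_mul, map_pow, h3, h4]
  rw [h5, h1, h2, map_pow, map_pow, pow_add, mul_pow]
  ring

end Semi

section Action

variable {k : Type} [Field k] {n r : ℕ}

theorem arc_dact_yw {N : ℕ} (u : Fin n → ℕ) (l : AlgebraicClosure k) (hl : l ≠ 0)
    (y : Pt k (Fin n × Fin (N + 1))) (i : Fin n) :
    arc (dact (yw N u) l y) i = PowerSeries.C (l ^ u i) * PowerSeries.rescale l (arc y i) := by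
  ext j
  rw [PowerSeries.coeff_C_mul, PowerSeries.coeff_rescale]
  simp only [arc, PowerSeries.coeff_mk, dact, yw]
  split_ifs with h
  · rw [zpow_add₀ hl, zpow_natCast, zpow_natCast, mul_assoc]
  · rw [mul_zero, mul_zero]

/-- semi-invariance of the coefficients of `gser` -/
theorem coeff_gser_dact {N : ℕ} (u : Fin n → ℕ) (m : Fin r → Fin n → ℕ) (c : Fin r → k)
    (l : AlgebraicClosure k) (hl : l ≠ 0) (y : Pt k (Fin n × Fin (N + 1))) (s : ℕ) :
    PowerSeries.coeff s (gser m (cb c) (del m u) (arc (dact (yw N u) l y))) =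
      l ^ ((gord m u : ℤ) + s) * PowerSeries.coeff s (gser m (cb c) (del m u) (arc y)) := by
  have h : arc (dact (yw N u) l y) = fun i =>
      PowerSeries.C (l ^ u i) * PowerSeries.rescale l (arc y i) :=
    funext fun i => arc_dact_yw u l hl y i
  rw [h, gser_smul, PowerSeries.coeff_C_mul, PowerSeries.coeff_rescale, zpow_add₀ hl,
    zpow_natCast, zpow_natCast, mul_assoc]

theorem dact_yw_zero {N : ℕ} (u : Fin n → ℕ) (l : AlgebraicClosure k)
    (y : Pt k (Fin n × Fin (N + 1))) (i : Fin n) :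
    dact (yw N u) l y (i, 0) = l ^ (u i : ℤ) * y (i, 0) := by
  show l ^ ((u i : ℤ) + (((0 : Fin (N + 1)) : ℕ) : ℤ)) * y (i, 0) = _
  have h0 : (((0 : Fin (N + 1)) : ℕ) : ℤ) = 0 := rfl
  rw [h0, add_zero]

/-- `f` vanishes at the base points -/
theorem base_zero (A : Fin n → ℕ) (m : Fin r → Fin n → ℕ) (c : Fin r → k) (e : ℕ)
    (he : 0 < e) (u : Fin n → ℕ) (hf : 0 < ford A m e u) (w : Pt k (Fin n))
    (hw : ∀ i, u i ≠ 0 → w i = 0) : MvPolynomial.aeval w (sp A m c e) = 0 := by
  unfold sp
  rw [map_mul, map_pow, map_sum, map_prod]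
  by_cases h : ∃ i, u i ≠ 0 ∧ A i ≠ 0
  · obtain ⟨i, h1, h2⟩ := h
    have : ∏ i, MvPolynomial.aeval w (MvPolynomial.X i ^ A i : MvPolynomial (Fin n) k) = 0 := by
      refine Finset.prod_eq_zero (Finset.mem_univ i) ?_
      rw [map_pow, MvPolynomial.aeval_X, hw i h1, zero_pow h2]
    rw [this, zero_mul]
  · push Not at h
    have h1 : ∑ i, u i * A i = 0 := by
      refine Finset.sum_eq_zero fun i _ => ?_
      by_cases h0 : u i = 0
      · rw [h0, zero_mul]
      · rw [h i h0, mul_zero]
    have h2 : 0 < gord m u := by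
      have : ford A m e u = ∑ i, u i * A i + e * gord m u := rfl
      rw [this, h1, zero_add] at hf
      exact Nat.pos_of_mul_pos_left hf
    have h3 : ∑ j, MvPolynomial.aeval w
        (MvPolynomial.C (c j) * ∏ i, MvPolynomial.X i ^ m j i : MvPolynomial (Fin n) k) = 0 := by
      refine Finset.sum_eq_zero fun j _ => ?_
      have h4 : ∃ i, u i * m j i ≠ 0 := by
        by_contra hc
        push Not at hc
        have h5 := gord_le m u j
        rw [Finset.sum_eq_zero fun i _ => hc i] at h5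
        omega
      obtain ⟨i, hi⟩ := h4
      have hi1 : u i ≠ 0 := fun hc => hi (by rw [hc, zero_mul])
      have hi2 : m j i ≠ 0 := fun hc => hi (by rw [hc, mul_zero])
      rw [map_mul, map_prod]
      have h6 : ∏ i, MvPolynomial.aeval w (MvPolynomial.X i ^ m j i : MvPolynomial (Fin n) k) =
          0 := by
        refine Finset.prod_eq_zero (Finset.mem_univ i) ?_
        rw [map_pow, MvPolynomial.aeval_X, hw i hi1, zero_pow hi2]
      rw [h6, mul_zero]
    rw [h3, zero_pow he.ne', mul_zero]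

theorem base_yb {N : ℕ} (A : Fin n → ℕ) (m : Fin r → Fin n → ℕ) (c : Fin r → k) (e : ℕ)
    (he : 0 < e) (u : Fin n → ℕ) (hf : 0 < ford A m e u) (z : Pt k (Fin n × Fin (N + 1))) :
    MvPolynomial.aeval (cbase (yb N u) z) (sp A m c e) = 0 := by
  refine base_zero A m c e he u hf _ fun i hi => ?_
  unfold cbase yb
  rw [if_neg hi]
  rfl

theorem base_bb (A : Fin n → ℕ) (m : Fin r → Fin n → ℕ) (c : Fin r → k) (e : ℕ)
    (he : 0 < e) (J : Finset (Fin n)) (u : Fin n → ℕ) (hA : Adm J u) (hf : 0 < ford A m e u)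
    (z : Pt k (Fin n)) : MvPolynomial.aeval (cbase (bb J) z) (sp A m c e) = 0 := by
  refine base_zero A m c e he u hf _ fun i hi => ?_
  unfold cbase bb
  rw [if_pos ((hA i).1 hi)]
  rfl

theorem base_bb1 (A : Fin n → ℕ) (m : Fin r → Fin n → ℕ) (c : Fin r → k) (e : ℕ)
    (he : 0 < e) (J : Finset (Fin n)) (u : Fin n → ℕ) (hA : Adm J u) (hf : 0 < ford A m e u)
    (z : Pt k (Option (Fin n))) : MvPolynomial.aeval (cbase (bb1 J) z) (sp A m c e) = 0 := by
  refine base_zero A m c e he u hf _ fun i hi => ?_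
  unfold cbase bb1
  rw [if_pos ((hA i).1 hi)]
  rfl

end Action

end Pool.Agent.W749.ME
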