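import Pool.Agent.W428.MOT.EStm
import Pool.Agent.W749.MT.Com

/-!
# Project ME: free coordinates of the strata (common part of the tasks ESTB and ESTC)
-/

set_option autoImplicit false

namespace Pool.Agent.W749.ME

open Pool.Agent.W428.MOT Pool.Agent.W749.MT
open Pool.Agent.W426.SM (AffInd gord ford)

/-! ### the normalised strata -/

section Gen

variable {k : Type} [Field k] {n : ℕ}

/-- the normalised stratum -/
def NrmE (N : ℕ) (Fr : Finset (Fin n)) (E : Finset (Fin n × Fin (2 * N + 1 + 1)))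
    (T : Set (Pt k (Fin n × Fin (2 * N + 1 + 1)))) : Set (Pt k (Fin n × Fin (2 * N + 1 + 1))) :=
  {y | (∀ p : Fin n × Fin (2 * N + 1 + 1), 0 < (p.2 : ℕ) → p ∉ E → y p = 0) ∧
    (∀ i, i ∉ Fr → y (i, 0) ≠ 0) ∧ ∀ i ∈ Fr, y (i, 0) = 1} ∩ T

/-- the weights on the normalised stratum -/
def nw (N : ℕ) (u : Fin n → ℕ) (Fr : Finset (Fin n)) (E : Finset (Fin n × Fin (2 * N + 1 + 1)))
    (p : Fin n × Fin (2 * N + 1 + 1)) : ℤ :=
  if (p.1 ∈ Fr ∧ p.2 = 0) ∨ (p ∈ Qs N u ∧ p ∉ E) then 0 else yw (2 * N + 1) u p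

theorem freeE (h1 : S_EFree) {f : MvPolynomial (Fin n) k} {R : Type} [CommRing R] (M : EMeas f R)
    (N : ℕ) (u : Fin n → ℕ) (hN : 0 < N)
    (Fr : Finset (Fin n)) (hx : ∀ i ∈ Fr, u i ≠ 0) (hFr : ∀ i, i ∉ Fr → u i ≤ N)
    (hbase : ∀ z : Pt k (Fin n × Fin (2 * N + 1 + 1)),
      MvPolynomial.aeval (cbase (yb (2 * N + 1) u) z) f = 0)
    (E : Finset (Fin n × Fin (2 * N + 1 + 1))) (hE : E ⊆ Qs N u)
    (T : Set (Pt k (Fin n × Fin (2 * N + 1 + 1)))) (hT : Constr T)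
    (hTst : ∀ l : AlgebraicClosure k, l ^ N = 1 → ∀ z ∈ T, dact (yw (2 * N + 1) u) l z ∈ T)
    (hdep : ∀ y w : Pt k (Fin n × Fin (2 * N + 1 + 1)), (∀ i, i ∉ Fr → w (i, 0) = y (i, 0)) →
      (∀ p ∈ E, w p = y p) → y ∈ T → w ∈ T) :
    M.χ _ (Y0E k N u ∩ T) (yw (2 * N + 1) u) N (yb (2 * N + 1) u) * M.L ^ E.card =
      M.χ _ (NrmE N Fr E T) (nw N u Fr E) N (yb (2 * N + 1) u) *
        (M.L - 1) ^ (Fr.filter fun i => u i ≤ N).card *
        M.L ^ (Fr.filter fun i => ¬ u i ≤ N).card * M.L ^ (∑ i, (2 * N + 1 - u i)) := by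
  classical
  set z0 : Fin (2 * N + 1 + 1) := 0 with hz0
  have hz0v : (z0 : ℕ) = 0 := rfl
  set F0 : Finset (Fin n × Fin (2 * N + 1 + 1)) :=
    (Fr.filter fun i => u i ≤ N).image (fun i => (i, z0)) with hF0
  set F1a : Finset (Fin n × Fin (2 * N + 1 + 1)) :=
    (Fr.filter fun i => ¬ u i ≤ N).image (fun i => (i, z0)) with hF1a
  set a : Fin n × Fin (2 * N + 1 + 1) → k := fun p => if (p.2 : ℕ) = 0 then 1 else 0 with ha
  have hinj : Function.Injective (fun i : Fin n => (i, z0)) := fun i j h => (Prod.mk.inj h).1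
  have hcF0 : F0.card = (Fr.filter fun i => u i ≤ N).card := Finset.card_image_of_injective _ hinj
  have hcF1a : F1a.card = (Fr.filter fun i => ¬ u i ≤ N).card :=
    Finset.card_image_of_injective _ hinj
  have hmF0 : ∀ p, p ∈ F0 ↔ p.1 ∈ Fr ∧ u p.1 ≤ N ∧ p.2 = z0 := by
    intro p
    simp only [hF0, Finset.mem_image, Finset.mem_filter]
    constructor
    · rintro ⟨i, ⟨h1, h2⟩, rfl⟩
      exact ⟨h1, h2, rfl⟩
    · rintro ⟨h1, h2, h3⟩
      exact ⟨p.1, ⟨h1, h2⟩, by rw [← h3]⟩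
  have hmF1a : ∀ p, p ∈ F1a ↔ p.1 ∈ Fr ∧ ¬ u p.1 ≤ N ∧ p.2 = z0 := by
    intro p
    simp only [hF1a, Finset.mem_image, Finset.mem_filter]
    constructor
    · rintro ⟨i, ⟨h1, h2⟩, rfl⟩
      exact ⟨h1, h2, rfl⟩
    · rintro ⟨h1, h2, h3⟩
      exact ⟨p.1, ⟨h1, h2⟩, by rw [← h3]⟩
  have hdisj1 : Disjoint F1a (Qs N u \ E) := by
    rw [Finset.disjoint_left]
    intro p hp hq
    have h2 := ((hmF1a p).1 hp).2.2
    have h3 := (mem_Qs.1 (Finset.mem_sdiff.1 hq).1).1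
    rw [h2] at h3
    exact absurd h3 (lt_irrefl 0)
  have hdisj : Disjoint F0 (F1a ∪ (Qs N u \ E)) := by
    rw [Finset.disjoint_left]
    intro p hp hq
    obtain ⟨h2, h3, h4⟩ := (hmF0 p).1 hp
    rcases Finset.mem_union.1 hq with hq | hq
    · exact ((hmF1a p).1 hq).2.1 h3
    · have h5 := (mem_Qs.1 (Finset.mem_sdiff.1 hq).1).1
      rw [h4] at h5
      exact absurd h5 (lt_irrefl 0)
  have hmU : ∀ p, p ∈ F0 ∪ (F1a ∪ (Qs N u \ E)) ↔
      (p.1 ∈ Fr ∧ p.2 = 0) ∨ (p ∈ Qs N u ∧ p ∉ E) := by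
    intro p
    rw [Finset.mem_union, Finset.mem_union, hmF0, hmF1a, Finset.mem_sdiff]
    by_cases h : u p.1 ≤ N
    · tauto
    · tauto
  set S : Set (Pt k (Fin n × Fin (2 * N + 1 + 1))) :=
    {y | (∀ p : Fin n × Fin (2 * N + 1 + 1), 2 * N + 1 - u p.1 < (p.2 : ℕ) → y p = 0) ∧
      (∀ i, i ∉ Fr → y (i, z0) ≠ 0)} ∩ T
    with hS
  have hSc : Constr S := by
    refine Constr.inter ?_ hT
    refine Constr.and ?_ ?_
    · refine Constr.all fun p => ?_
      refine Constr.imp' fun _ => ?_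
      exact Constr.eqz (IsPF.coord p)
    · refine Constr.all fun i => ?_
      refine Constr.imp' fun _ => ?_
      exact Constr.ne (IsPF.coord _) IsPF.zero
  have hSdep : ∀ z w : Pt k (Fin n × Fin (2 * N + 1 + 1)),
      (∀ i, i ∉ F0 → i ∉ F1a ∪ (Qs N u \ E) → w i = z i) → z ∈ S → w ∈ S := by
    rintro z w h ⟨⟨hz1, hz2⟩, hz4⟩
    have hoff : ∀ i, i ∉ Fr → w (i, z0) = z (i, z0) := by
      intro i hi
      refine h (i, z0) ?_ ?_
      · intro hp
        exact hi ((hmF0 _).1 hp).1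
      · intro hp
        rcases Finset.mem_union.1 hp with hp | hp
        · exact hi ((hmF1a _).1 hp).1
        · exact absurd (mem_Qs.1 (Finset.mem_sdiff.1 hp).1).1 (lt_irrefl 0)
    refine ⟨⟨?_, ?_⟩, ?_⟩
    · intro p hp
      have hp0 : (p.2 : ℕ) ≠ 0 := by omega
      rw [h p ?_ ?_]
      · exact hz1 p hp
      · intro hq
        apply hp0
        rw [((hmF0 _).1 hq).2.2]
        rfl
      · intro hq
        rcases Finset.mem_union.1 hq with hq | hq
        · apply hp0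
          rw [((hmF1a _).1 hq).2.2]
          rfl
        · have := (mem_Qs.1 (Finset.mem_sdiff.1 hq).1).2
          omega
    · intro i hi
      rw [hoff i hi]
      exact hz2 i hi
    · refine hdep z w hoff ?_ hz4
      intro p hp
      have hpQ := mem_Qs.1 (hE hp)
      refine h p ?_ ?_
      · intro hq
        have := ((hmF0 _).1 hq).2.2
        rw [this] at hpQ
        exact absurd hpQ.1 (lt_irrefl 0)
      · intro hq
        rcases Finset.mem_union.1 hq with hq | hq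
        · have := ((hmF1a _).1 hq).2.2
          rw [this] at hpQ
          exact absurd hpQ.1 (lt_irrefl 0)
        · exact (Finset.mem_sdiff.1 hq).2 hp
  have hl0 : ∀ l : AlgebraicClosure k, l ^ N = 1 → l ≠ 0 := by
    intro l hl h0
    rw [h0, zero_pow hN.ne'] at hl
    exact zero_ne_one hl
  have hSst : ∀ l : AlgebraicClosure k, l ^ N = 1 → ∀ z ∈ S,
      dact (yw (2 * N + 1) u) l z ∈ S := by
    rintro l hl z ⟨⟨hz1, hz2⟩, hz4⟩
    refine ⟨⟨?_, ?_⟩, hTst l hl z hz4⟩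
    · intro p hp
      show l ^ _ * z p = 0
      rw [hz1 p hp, mul_zero]
    · intro i hi
      exact mul_ne_zero (zpow_ne_zero _ (hl0 l hl)) (hz2 i hi)
  have hyb : ∀ i j, yb (2 * N + 1) u i = some j → u i = 0 ∧ j = (i, z0) := by
    intro i j h
    unfold yb at h
    split_ifs at h with h0
    exact ⟨h0, (Option.some.inj h).symm⟩
  have hV : Valid f S (yw (2 * N + 1) u) N (yb (2 * N + 1) u) := by
    refine ⟨hSc, hN, hSst, fun z _ => hbase z, ?_⟩
    intro i j h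
    obtain ⟨h2, h3⟩ := hyb i j h
    rw [h3]
    show (u i : ℤ) + ((z0 : ℕ) : ℤ) = 0
    rw [h2, hz0v]
    rfl
  have key := h1 M S (yw (2 * N + 1) u) N (yb (2 * N + 1) u) F0 (F1a ∪ (Qs N u \ E)) a hdisj hV
    (by
      intro i j h
      obtain ⟨h2, h3⟩ := hyb i j h
      have h4 : i ∉ Fr := fun hc => hx i hc h2
      rw [h3]
      refine ⟨fun hc => h4 ((hmF0 _).1 hc).1, fun hc => ?_⟩
      rcases Finset.mem_union.1 hc with hc | hc
      · exact h4 ((hmF1a _).1 hc).1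
      · exact absurd (mem_Qs.1 (Finset.mem_sdiff.1 hc).1).1 (lt_irrefl 0)) hSdep
  have e1 : S ∩ {z | ∀ i ∈ F0, z i ≠ 0} = Y0E k N u ∩ T := by
    ext y
    constructor
    · rintro ⟨⟨⟨hy1, hy2⟩, hy4⟩, hy5⟩
      refine ⟨⟨?_, ?_⟩, hy4⟩
      · intro i j hj
        exact hy1 (i, j) hj
      · intro i hi
        by_cases hf : i ∈ Fr
        · exact hy5 (i, z0) ((hmF0 _).2 ⟨hf, hi, rfl⟩)
        · exact hy2 i hf
    · rintro ⟨⟨hy1, hy2⟩, hy4⟩
      refine ⟨⟨⟨?_, ?_⟩, hy4⟩, ?_⟩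
      · intro p hp
        exact hy1 p.1 p.2 hp
      · intro i hi
        exact hy2 i (hFr i hi)
      · intro p hp
        obtain ⟨h2, h3, h4⟩ := (hmF0 p).1 hp
        have := hy2 p.1 h3
        have e : p = (p.1, z0) := by rw [← h4]
        rw [e]
        exact this
  have e2 : S ∩ {z | ∀ i ∈ F0 ∪ (F1a ∪ (Qs N u \ E)), z i = algebraMap k _ (a i)} =
      NrmE N Fr E T := by
    have ha0 : ∀ i, a (i, z0) = 1 := fun i => by
      show (if ((z0 : ℕ)) = 0 then (1 : k) else 0) = 1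
      rw [if_pos hz0v]
    have ha1 : ∀ p : Fin n × Fin (2 * N + 1 + 1), 0 < (p.2 : ℕ) → a p = 0 := fun p hp => by
      simp only [ha]
      rw [if_neg hp.ne']
    ext y
    constructor
    · rintro ⟨⟨⟨hy1, hy2⟩, hy4⟩, hy5⟩
      refine ⟨⟨?_, hy2, ?_⟩, hy4⟩
      · intro p hp hpE
        rcases Nat.lt_or_ge (2 * N + 1 - u p.1) (p.2 : ℕ) with h | h
        · exact hy1 p h
        · have := hy5 p (Finset.mem_union_right _ (Finset.mem_union_right _
            (Finset.mem_sdiff.2 ⟨mem_Qs.2 ⟨hp, h⟩, hpE⟩)))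
          rw [this, ha1 p hp, map_zero]
      · intro i hi
        have hm : (i, z0) ∈ F0 ∪ (F1a ∪ (Qs N u \ E)) := (hmU _).2 (Or.inl ⟨hi, rfl⟩)
        have := hy5 (i, z0) hm
        rw [this, ha0, map_one]
    · rintro ⟨⟨hy1, hy2, hy4⟩, hy5⟩
      refine ⟨⟨⟨?_, hy2⟩, hy5⟩, ?_⟩
      · intro p hp
        refine hy1 p (by omega) fun hpE => ?_
        have := (mem_Qs.1 (hE hpE)).2
        omega
      · intro p hp
        rcases (hmU p).1 hp with ⟨h2, h3⟩ | ⟨h2, h3⟩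
        · have e : p = (p.1, z0) := by rw [hz0, ← h3]
          rw [e, ha0, map_one]
          exact hy4 p.1 h2
        · have h4 := (mem_Qs.1 h2).1
          rw [hy1 p h4 h3, ha1 p h4, map_zero]
  have e3 : (fun i => if i ∈ F0 ∪ (F1a ∪ (Qs N u \ E)) then 0 else yw (2 * N + 1) u i) =
      nw N u Fr E := by
    funext p
    unfold nw
    by_cases h : p ∈ F0 ∪ (F1a ∪ (Qs N u \ E))
    · rw [if_pos h, if_pos ((hmU p).1 h)]
    · rw [if_neg h, if_neg fun hc => h ((hmU p).2 hc)]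
  have hcE : (Qs N u \ E).card + E.card = ∑ i, (2 * N + 1 - u i) := by
    rw [Finset.card_sdiff_add_card_eq_card hE, card_Qs]
  rw [e1, e2, e3] at key
  rw [key, Finset.card_union_of_disjoint hdisj1, hcF0, hcF1a, pow_add, ← hcE, pow_add]
  ring

/-- the normalised stratum is valid -/
theorem valid_Nrm {f : MvPolynomial (Fin n) k}
    (N : ℕ) (u : Fin n → ℕ) (hN : 0 < N) (Fr : Finset (Fin n)) (hx : ∀ i ∈ Fr, u i ≠ 0)
    (hbase : ∀ z : Pt k (Fin n × Fin (2 * N + 1 + 1)),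
      MvPolynomial.aeval (cbase (yb (2 * N + 1) u) z) f = 0)
    (E : Finset (Fin n × Fin (2 * N + 1 + 1))) (hE : E ⊆ Qs N u)
    (T : Set (Pt k (Fin n × Fin (2 * N + 1 + 1)))) (hT : Constr T)
    (hTst : ∀ l : AlgebraicClosure k, l ^ N = 1 → ∀ z ∈ T, dact (yw (2 * N + 1) u) l z ∈ T)
    (hdep : ∀ y w : Pt k (Fin n × Fin (2 * N + 1 + 1)), (∀ i, i ∉ Fr → w (i, 0) = y (i, 0)) →
      (∀ p ∈ E, w p = y p) → y ∈ T → w ∈ T) :
    Valid f (NrmE N Fr E T) (nw N u Fr E) N (yb (2 * N + 1) u) := by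
  have hl0 : ∀ l : AlgebraicClosure k, l ^ N = 1 → l ≠ 0 := by
    intro l hl h0
    rw [h0, zero_pow hN.ne'] at hl
    exact zero_ne_one hl
  have hz0v : ((0 : Fin (2 * N + 1 + 1)) : ℕ) = 0 := rfl
  have hQ0 : ∀ i, ((i, 0) : Fin n × Fin (2 * N + 1 + 1)) ∉ Qs N u := fun i hc =>
    absurd (mem_Qs.1 hc).1 (lt_irrefl 0)
  have hnw1 : ∀ i, i ∉ Fr → nw N u Fr E (i, 0) = yw (2 * N + 1) u (i, 0) := by
    intro i hi
    unfold nw
    rw [if_neg]
    rintro (⟨h, _⟩ | ⟨h, _⟩)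
    · exact hi h
    · exact hQ0 i h
  have hnw2 : ∀ i, i ∈ Fr → nw N u Fr E (i, 0) = 0 := by
    intro i hi
    unfold nw
    rw [if_pos (Or.inl ⟨hi, rfl⟩)]
  have hnw3 : ∀ p ∈ E, nw N u Fr E p = yw (2 * N + 1) u p := by
    intro p hp
    unfold nw
    rw [if_neg]
    rintro (⟨_, h⟩ | ⟨_, h⟩)
    · have := (mem_Qs.1 (hE hp)).1
      rw [h] at this
      exact absurd this (lt_irrefl 0)
    · exact h hp
  refine ⟨?_, hN, ?_, fun z _ => hbase z, ?_⟩
  · refine Constr.inter ?_ hT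
    refine Constr.and ?_ (Constr.and ?_ ?_)
    · refine Constr.all fun p => Constr.imp' fun _ => Constr.imp' fun _ => ?_
      exact Constr.eqz (IsPF.coord _)
    · refine Constr.all fun i => Constr.imp' fun _ => ?_
      exact Constr.ne (IsPF.coord _) IsPF.zero
    · refine Constr.ballFinset _ fun i _ => ?_
      exact Constr.eq (IsPF.coord _) IsPF.one
  · rintro l hl z ⟨⟨hz1, hz2, hz3⟩, hz4⟩
    refine ⟨⟨?_, ?_, ?_⟩, ?_⟩
    · intro p hp hpE
      show l ^ _ * z p = 0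
      rw [hz1 p hp hpE, mul_zero]
    · intro i hi
      exact mul_ne_zero (zpow_ne_zero _ (hl0 l hl)) (hz2 i hi)
    · intro i hi
      show l ^ nw N u Fr E (i, 0) * z (i, 0) = 1
      rw [hnw2 i hi, hz3 i hi, zpow_zero, one_mul]
    · refine hdep (dact (yw (2 * N + 1) u) l z) _ ?_ ?_ (hTst l hl z hz4)
      · intro i hi
        show l ^ nw N u Fr E (i, 0) * z (i, 0) = l ^ yw (2 * N + 1) u (i, 0) * z (i, 0)
        rw [hnw1 i hi]
      · intro p hp
        show l ^ nw N u Fr E p * z p = l ^ yw (2 * N + 1) u p * z p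
        rw [hnw3 p hp]
  · intro i j h
    unfold yb at h
    split_ifs at h with h0
    rw [← Option.some.inj h, hnw1 i fun hc => hx i hc h0]
    show (u i : ℤ) + (((0 : Fin (2 * N + 1 + 1)) : ℕ) : ℤ) = 0
    rw [h0, hz0v]
    rfl

end Gen

end Pool.Agent.W749.ME
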